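import Mathlib

/-!
# Cofinal families of sets of size at most aleph one

Auxiliary file for the problem MP_8f36f1_lc.
-/

open Set Cardinal

universe u

namespace Pool.Agent.Lib.MP_8f36f1_lc

/-- There are at most `θ` sets of size at most `ℵ₁` such that every subset of `S` of size at most
`ℵ₁` is contained in one of them. -/
def HasCof {T : Type u} (S : Set T) (θ : Cardinal.{u}) : Prop :=
  ∃ 𝒞 : Set (Set T), #𝒞 ≤ θ ∧ (∀ A ∈ 𝒞, #A ≤ ℵ₁) ∧ ∀ B : Set T, B ⊆ S → #B ≤ ℵ₁ → ∃ A ∈ 𝒞, B ⊆ A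

variable {T : Type u} {θ : Cardinal.{u}}

theorem HasCof.of_small (hθ : 1 ≤ θ) {S : Set T} (hS : #S ≤ ℵ₁) : HasCof S θ := by
  refine ⟨{S}, ?_, ?_, ?_⟩
  · rw [mk_singleton]
    exact hθ
  · rintro A rfl
    exact hS
  · intro B hB _
    exact ⟨S, rfl, hB⟩

theorem mk_le_of_forall_le {J : Type u} {c : Cardinal.{u}} (hc : ℵ₀ ≤ c) (hJ : #J ≤ c)
    (S : J → Set T) (hS : ∀ j, #(S j) ≤ c) : #(⋃ j, S j) ≤ c := by
  refine (mk_iUnion_le S).trans ?_
  refine mul_le_of_le hc hJ ?_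
  exact ciSup_le' hS

theorem HasCof.of_cover {J : Type u} (hθ : ℵ₀ ≤ θ) (hJ : #J ≤ θ) (S : J → Set T)
    (h : ∀ j, HasCof (S j) θ) {U : Set T} (hU : ∀ B : Set T, B ⊆ U → #B ≤ ℵ₁ → ∃ j, B ⊆ S j) :
    HasCof U θ := by
  choose C h1 h2 h3 using h
  refine ⟨⋃ j, C j, ?_, ?_, ?_⟩
  · exact mk_le_of_forall_le hθ hJ C h1
  · intro A hA
    obtain ⟨j, hj⟩ := mem_iUnion.1 hA
    exact h2 j A hj
  · intro B hB hB1
    obtain ⟨j, hj⟩ := hU B hB hB1
    obtain ⟨A, hA, hBA⟩ := h3 j B hj hB1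
    exact ⟨A, mem_iUnion.2 ⟨j, hA⟩, hBA⟩

theorem HasCof.iUnion (hθ : θ ^ ℵ₀ ≤ θ) (S : ℕ → Set T) (h : ∀ n, HasCof (S n) θ) :
    HasCof (⋃ n, S n) θ := by
  choose C h1 h2 h3 using h
  refine ⟨range (fun f : ∀ n, C n => ⋃ n, (f n : Set T)), ?_, ?_, ?_⟩
  · refine mk_range_le.trans ?_
    rw [mk_pi]
    refine (prod_le_prod _ (fun _ => θ) h1).trans ?_
    rw [prod_const]
    simpa using hθ
  · rintro A ⟨f, rfl⟩
    have h4 : #(⋃ n : ULift.{u} ℕ, (f n.down : Set T)) ≤ ℵ₁ := by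
      refine mk_le_of_forall_le aleph0_lt_aleph_one.le ?_ _ ?_
      · rw [mk_uLift, mk_nat, lift_aleph0]
        exact aleph0_lt_aleph_one.le
      · intro j
        exact h2 _ _ (f j.down).2
    have h5 : (⋃ n : ULift.{u} ℕ, (f n.down : Set T)) = ⋃ n, (f n : Set T) := by
      ext x
      simp only [mem_iUnion]
      constructor
      · rintro ⟨n, hn⟩
        exact ⟨n.down, hn⟩
      · rintro ⟨n, hn⟩
        exact ⟨⟨n⟩, hn⟩
    rw [h5] at h4
    exact h4
  · intro B hB hB1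
    have h4 : ∀ n, ∃ A ∈ C n, B ∩ S n ⊆ A := fun n =>
      h3 n (B ∩ S n) inter_subset_right ((mk_le_mk_of_subset inter_subset_left).trans hB1)
    choose A hA hBA using h4
    refine ⟨_, ⟨fun n => ⟨A n, hA n⟩, rfl⟩, ?_⟩
    intro x hx
    obtain ⟨n, hn⟩ := mem_iUnion.1 (hB hx)
    exact mem_iUnion.2 ⟨n, hBA n ⟨hx, hn⟩⟩

theorem mk_Iio_ord_lt {c : Cardinal.{u}} (i : c.ord.ToType) : #(Iio i) < c := by
  simpa using mk_Iio_lt i

/-- The successor step. -/
theorem HasCof.succ {c : Cardinal.{u}} (hc : ℵ₁ ≤ c) (hθ : c ≤ θ)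
    (hsc : Order.succ c ≤ θ)
    (ih : ∀ S : Set T, #S ≤ c → HasCof S θ) {S : Set T} (hS : #S ≤ Order.succ c) :
    HasCof S θ := by
  by_cases hSc : #S ≤ c
  · exact ih S hSc
  have hc0 : ℵ₀ ≤ c := aleph0_lt_aleph_one.le.trans hc
  have hθ0 : ℵ₀ ≤ θ := hc0.trans hθ
  obtain ⟨e⟩ : Nonempty (S ≃ (#S).ord.ToType) := by
    rw [← Cardinal.eq, mk_ord_toType]
  let P : (#S).ord.ToType → Set T := fun j => {x | ∃ h : x ∈ S, e ⟨x, h⟩ < j}
  have hP : ∀ j, #(P j) ≤ c := by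
    intro j
    have h1 : #(P j) ≤ #(Iio j) := by
      refine mk_le_of_injective (f := fun x => ⟨e ⟨x.1, x.2.choose⟩, x.2.choose_spec⟩) ?_
      rintro ⟨x, hx⟩ ⟨y, hy⟩ hxy
      simp only [Subtype.mk.injEq, EmbeddingLike.apply_eq_iff_eq] at hxy
      exact Subtype.ext hxy
    have h2 : #(Iio j) < #S := mk_Iio_ord_lt j
    exact Order.lt_succ_iff.1 ((h1.trans_lt h2).trans_le hS)
  have hIic : ∀ j : (#S).ord.ToType, #(Iic j) ≤ c := by
    intro j
    have h2 : #(Iio j) < #S := mk_Iio_ord_lt j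
    have h3 : #(Iio j) ≤ c := Order.lt_succ_iff.1 (h2.trans_le hS)
    have h4 : Iic j = insert j (Iio j) := by
      ext x
      simp only [mem_Iic, mem_insert_iff, mem_Iio]
      exact le_iff_eq_or_lt
    rw [h4]
    refine mk_insert_le.trans ?_
    exact add_le_of_le hc0 h3 (one_le_aleph0.trans hc0)
  refine HasCof.of_cover hθ0 ?_ P (fun j => ih (P j) (hP j)) ?_
  · rw [mk_ord_toType]
    exact hS.trans hsc
  · intro B hB hB1
    by_contra hcon
    push Not at hcon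
    apply hSc
    have h5 : (univ : Set (#S).ord.ToType) ⊆ ⋃ b : B, Iic (e ⟨b.1, hB b.2⟩) := by
      intro j _
      obtain ⟨b, hb, hbj⟩ := not_subset.1 (hcon j)
      refine mem_iUnion.2 ⟨⟨b, hb⟩, ?_⟩
      rw [mem_Iic]
      by_contra hlt
      rw [not_le] at hlt
      exact hbj ⟨hB hb, hlt⟩
    have h6 : #(univ : Set (#S).ord.ToType) ≤ c :=
      (mk_le_mk_of_subset h5).trans (mk_le_of_forall_le hc0 (hB1.trans hc) _ (fun b => hIic _))
    rw [mk_univ, mk_ord_toType] at h6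
    exact h6

theorem hasCof_of_lt (hθ : θ ^ ℵ₀ ≤ θ) (hθ1 : ℵ₁ ≤ θ) (α : Ordinal.{u}) (hα : α < Ordinal.omega 1)
    (hαθ : ℵ_ α ≤ θ) : ∀ S : Set T, #S ≤ ℵ_ α → HasCof S θ := by
  have hθ0 : (1 : Cardinal) ≤ θ := (one_lt_aleph0.trans aleph0_lt_aleph_one).le.trans hθ1
  induction α using Ordinal.limitRecOn with
  | zero =>
    intro S hS
    refine HasCof.of_small hθ0 (hS.trans ?_)
    rw [aleph_zero]
    exact aleph0_lt_aleph_one.le
  | add_one β ih =>
    have hβ : β < β + 1 := Order.lt_add_one_iff.2 le_rfl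
    have hβθ : ℵ_ β ≤ θ := (aleph_le_aleph.2 hβ.le).trans hαθ
    have ih' := ih (hβ.trans hα) hβθ
    intro S hS
    rcases eq_or_ne β 0 with h0 | h0
    · subst h0
      rw [zero_add] at hS
      exact HasCof.of_small hθ0 hS
    · have h1 : ℵ₁ ≤ ℵ_ β := aleph_le_aleph.2 (Order.one_le_iff_ne_zero.2 h0)
      rw [← succ_aleph] at hS hαθ
      exact HasCof.succ h1 hβθ hαθ ih' hS
  | limit α hlim ih =>
    intro S hS
    have hct : (Iio α).Countable := by
      rw [← le_aleph0_iff_set_countable, mk_Iio_ordinal, ← lift_aleph0.{u + 1, u}, lift_le]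
      exact lt_aleph_one_iff.1 (lt_omega_iff_card_lt.1 hα)
    have hne : (Iio α).Nonempty := ⟨0, hlim.bot_lt⟩
    obtain ⟨f, hf⟩ := hct.exists_eq_range hne
    obtain ⟨e⟩ : Nonempty (S ≃ (#S).ord.ToType) := by
      rw [← Cardinal.eq, mk_ord_toType]
    let tp : S → Ordinal.{u} := fun x => (Ordinal.ToType.mk.symm (e x)).1
    have htp : Function.Injective tp := by
      intro x y hxy
      exact e.injective (Ordinal.ToType.mk.symm.injective (Subtype.ext hxy))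
    have htp2 : ∀ x, (tp x).card < #S := fun x => lt_ord.1 (Ordinal.ToType.mk.symm (e x)).2
    let P : ℕ → Set T := fun n => {x | ∃ h : x ∈ S, (tp ⟨x, h⟩).card < ℵ_ (f n)}
    have hfn : ∀ n, f n < α := fun n => by
      have : f n ∈ Iio α := by rw [hf]; exact mem_range_self n
      exact this
    have hP : ∀ n, #(P n) ≤ ℵ_ (f n) := by
      intro n
      have h1 : Cardinal.lift.{u + 1} #(P n) ≤ Cardinal.lift.{u} #(Iio (Ordinal.omega (f n))) := by
        refine Cardinal.lift_mk_le_lift_mk_of_injective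
          (f := fun x => ⟨tp ⟨x.1, x.2.choose⟩, lt_omega_iff_card_lt.2 x.2.choose_spec⟩) ?_
        rintro ⟨x, hx⟩ ⟨y, hy⟩ hxy
        simp only [Subtype.mk.injEq] at hxy
        have := htp hxy
        simp only [Subtype.mk.injEq] at this
        exact Subtype.ext this
      rw [mk_Iio_ordinal, lift_lift, Ordinal.card_omega] at h1
      exact lift_le.1 h1
    have hSP : S = ⋃ n, P n := by
      ext x
      constructor
      · intro hx
        have h2 := (htp2 ⟨x, hx⟩).trans_le hS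
        rw [aleph_limit hlim] at h2
        obtain ⟨β, hβ⟩ := exists_lt_of_lt_ciSup' h2
        have h3 : (β : Ordinal) ∈ range f := by rw [← hf]; exact β.2
        obtain ⟨n, hn⟩ := h3
        refine mem_iUnion.2 ⟨n, hx, ?_⟩
        rw [hn]
        exact hβ
      · intro hx
        obtain ⟨n, hx, _⟩ := mem_iUnion.1 hx
        exact hx
    rw [hSP]
    refine HasCof.iUnion hθ P ?_
    intro n
    exact ih (f n) (hfn n) ((hfn n).trans hα) ((aleph_le_aleph.2 (hfn n).le).trans hαθ) _ (hP n)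

end Pool.Agent.Lib.MP_8f36f1_lc
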