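import Pool.Agent.Lib.MP_8f36f1_lc.Bounds

/-!
# MP_8f36f1_lc: the arithmetic bound for a witnessing family

If the closed discrete set `Y` of size `ℵ₁` is not separated and `F` witnesses its normality, then
`2 ^ ℵ₁` is at most the maximum of the size of `F` and of the cofinality of the family of subsets
of size at most `ℵ₁` of the continuum. So if moreover `F` has fewer than `2 ^ ℵ₁` members, then
`2 ^ ℵ₀ = 2 ^ ℵ₁` or `2 ^ ℵ₀ ≥ ℵ_{ω₁}`.
-/

open Set Cardinal Topology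

universe u

namespace Pool.Agent.Results.MP_8f36f1_lc.ArithmeticBound

open Pool.Agent.Lib.MP_8f36f1_lc

theorem result (X : Type u) [TopologicalSpace X] (Y : Set X) (B : Y → Set (Set X))
    (F : Set (Y → Set X)) (h : Setting X Y B F) (hns : ¬ Separated Y) :
    (2 : Cardinal.{u}) ^ (ℵ₁ : Cardinal.{u}) ≤ max #F (cofSmall (2 ^ ℵ₀)) ∧
    (#F < (2 : Cardinal.{u}) ^ (ℵ₁ : Cardinal.{u}) →
      (2 : Cardinal.{u}) ^ (ℵ₀ : Cardinal.{u}) = 2 ^ (ℵ₁ : Cardinal.{u}) ∨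
        ℵ_ (Ordinal.omega 1) ≤ (2 : Cardinal.{u}) ^ (ℵ₀ : Cardinal.{u})) :=
  ⟨h.power_le hns, fun hF => h.power_eq_or_le hns hF⟩

end Pool.Agent.Results.MP_8f36f1_lc.ArithmeticBound
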