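import Mathlib

/-!
# Capturing families of equivalence relations

Auxiliary file for the problem MP_8f36f1_lc: a family `E` of equivalence relations on a set `Ω`
such that every subset of `Ω` is a union of classes of one of them, and a sigma-ideal `I` such
that a set is in `I` as soon as its intersections with the classes of one relation are in `I`.
-/

open Set

universe u v

namespace Pool.Agent.Lib.MP_8f36f1_lc

variable {Ω : Type u} {ι : Type v}

/-- Every subset of `Ω` is a union of classes of one of the relations. -/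
def Capt (E : ι → Ω → Ω → Prop) : Prop :=
  ∀ Z : Set Ω, ∃ i, ∀ y z, E i y z → (y ∈ Z ↔ z ∈ Z)

/-- `I` is a sigma-ideal containing the singletons, and a set is in `I` as soon as its
intersections with the classes of one relation are in `I`. -/
structure FullIdeal (E : ι → Ω → Ω → Prop) (I : Set Ω → Prop) : Prop where
  mono : ∀ S T : Set Ω, I T → S ⊆ T → I S
  subs : ∀ S : Set Ω, S.Subsingleton → I S
  iUnion : ∀ S : ℕ → Set Ω, (∀ n, I (S n)) → I (⋃ n, S n)
  full : ∀ (i : ι) (S : Set Ω), (∀ y, I (S ∩ {z | E i y z})) → I S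

section

variable {E : ι → Ω → Ω → Prop} {I : Set Ω → Prop}

theorem FullIdeal.union (h : FullIdeal E I) {A B : Set Ω} (hA : I A) (hB : I B) :
    I (A ∪ B) := by
  have h' := h.iUnion (fun n => if n = 0 then A else B) (by
    intro n
    split_ifs
    · exact hA
    · exact hB)
  refine h.mono _ _ h' ?_
  intro x hx
  rcases hx with hx | hx
  · exact mem_iUnion.2 ⟨0, by simpa using hx⟩
  · exact mem_iUnion.2 ⟨1, by simpa using hx⟩

theorem FullIdeal.countable (h : FullIdeal E I) {S : Set Ω} (hS : S.Countable) : I S := by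
  rcases S.eq_empty_or_nonempty with rfl | hne
  · exact h.subs _ subsingleton_empty
  · obtain ⟨f, rfl⟩ := hS.exists_eq_range hne
    have h' := h.iUnion (fun n => {f n}) (fun n => h.subs _ subsingleton_singleton)
    refine h.mono _ _ h' ?_
    rintro _ ⟨n, rfl⟩
    exact mem_iUnion.2 ⟨n, rfl⟩

theorem FullIdeal.exists_class (h : FullIdeal E I) {S : Set Ω} (hS : ¬ I S) (i : ι) :
    ∃ y, ¬ I (S ∩ {z | E i y z}) := by
  by_contra hcon
  push Not at hcon
  exact hS (h.full i S hcon)

theorem FullIdeal.exists_class_subset (h : FullIdeal E I) (hE : ∀ i, Equivalence (E i))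
    (hC : Capt E) {Z : Set Ω} (hZ : ¬ I Z) :
    ∃ i y, {z | E i y z} ⊆ Z ∧ ¬ I {z | E i y z} := by
  obtain ⟨i, hi⟩ := hC Z
  obtain ⟨y, hy⟩ := h.exists_class hZ i
  refine ⟨i, y, ?_, fun h' => hy (h.mono _ _ h' inter_subset_right)⟩
  have hne : (Z ∩ {z | E i y z}).Nonempty := by
    by_contra hem
    rw [not_nonempty_iff_eq_empty] at hem
    rw [hem] at hy
    exact hy (h.subs _ subsingleton_empty)
  obtain ⟨w, hwZ, hw⟩ := hne
  intro z hz
  have hwz : E i w z := (hE i).trans ((hE i).symm hw) hz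
  exact (hi w z hwz).1 hwZ

theorem FullIdeal.splits (h : FullIdeal E I) (U : ℕ → Set Ω)
    (hU : ∀ b : ℕ → Prop, I {z | ∀ n, z ∈ U n ↔ b n}) (S : Set Ω)
    (hS : ∀ n, I (S ∩ U n) ∨ I (S \ U n)) : I S := by
  let b : ℕ → Prop := fun n => ¬ I (S ∩ U n)
  have h1 : I (⋃ n, {z | z ∈ S ∧ ¬ (z ∈ U n ↔ b n)}) := by
    refine h.iUnion _ ?_
    intro n
    by_cases hb : I (S ∩ U n)
    · refine h.mono _ _ hb ?_
      rintro z ⟨hz, hz'⟩
      refine ⟨hz, ?_⟩
      by_contra hzU
      exact hz' ⟨fun h => absurd h hzU, fun h => absurd hb h⟩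
    · have hb' : I (S \ U n) := (hS n).resolve_left hb
      refine h.mono _ _ hb' ?_
      rintro z ⟨hz, hz'⟩
      refine ⟨hz, ?_⟩
      intro hzU
      exact hz' ⟨fun _ => hb, fun _ => hzU⟩
  refine h.mono _ _ (h.union h1 (hU b)) ?_
  intro z hz
  by_cases hz' : ∀ n, z ∈ U n ↔ b n
  · exact Or.inr hz'
  · push Not at hz'
    left
    obtain ⟨n, hn⟩ := hz'
    refine mem_iUnion.2 ⟨n, hz, ?_⟩
    intro hiff
    rcases hn with ⟨h1, h2⟩ | ⟨h1, h2⟩
    · exact h2 (hiff.1 h1)
    · exact h1 (hiff.2 h2)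

end

end Pool.Agent.Lib.MP_8f36f1_lc
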