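import Pool.Agent.Lib.MP_8f36f1_lc.Dom

/-!
# Coding subsets of a well-order of type omega one

Auxiliary file for the problem MP_8f36f1_lc.
-/

open Set

universe u v w

namespace Pool.Agent.Lib.MP_8f36f1_lc

variable {W : Type u} [LinearOrder W] [WellFoundedLT W] {ι : Type v} {J : Type w}

/-- The set decoded from a family of reals. -/
def decode (enum : W → ℕ → W) (c : ℕ → Prop) (y : W) : Set W :=
  {x | ∃ m, c m ∧ enum y m = x}

/-- Every set is coded by an index of the family `t`, two relations, a number and a point. -/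
theorem exists_code (hI : ∀ a : W, (Iio a).Countable) (hU : ¬ (univ : Set W).Countable)
    (g : W → ℕ → Prop) (hg : Function.Injective g)
    {E : ι → W → W → Prop} {I : Set W → Prop} (hE : ∀ i, Equivalence (E i)) (hC : Capt E)
    (hFI : FullIdeal E I) (hns : ¬ I univ) (ψ : ι → W → W) (hψ : ∀ i, NextFun (E i) (ψ i))
    (enum : W → ℕ → W) (henum : ∀ a, Iio a ⊆ range (enum a))
    (t : J → W → ℕ → Prop) (ht : ∀ f : W → ℕ → Prop, ∃ j, range f ⊆ range (t j))
    (Z : Set W) :
    ∃ (j : J) (i : ι) (n : ℕ) (i' : ι) (w : W),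
      Z = ⋃ y ∈ {y | E i' w y}, decode enum (t j (enum (ψ i y) n)) y := by
  let f : W → ℕ → Prop := fun y m => enum y m ∈ Z ∧ enum y m < y
  have hdec : ∀ y, decode enum (f y) y = Z ∩ Iio y := by
    intro y
    ext x
    constructor
    · rintro ⟨m, ⟨hm1, hm2⟩, rfl⟩
      exact ⟨hm1, hm2⟩
    · rintro ⟨hx1, hx2⟩
      obtain ⟨m, rfl⟩ := henum y hx2
      exact ⟨m, ⟨hx1, hx2⟩, rfl⟩
  obtain ⟨j, hj⟩ := ht f
  have hgj : ∀ y, ∃ x, t j x = f y := fun y => hj (mem_range_self y)
  choose φ hφ using hgj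
  obtain ⟨i, hi⟩ := exists_dominates hI hU g hg hC hFI hns ψ hψ φ
  have hex : ∃ n, ¬ I {y | enum (ψ i y) n = φ y} := by
    by_contra hcon
    push Not at hcon
    apply hns
    refine hFI.mono _ _ (hFI.union (hFI.iUnion _ hcon) (hFI.countable hi)) ?_
    intro y _
    by_cases hy : ψ i y ≤ φ y
    · exact Or.inr hy
    · left
      rw [not_le] at hy
      obtain ⟨n, hn⟩ := henum _ hy
      exact mem_iUnion.2 ⟨n, hn⟩
  obtain ⟨n, hn⟩ := hex
  obtain ⟨i', w, hsub, hw⟩ := hFI.exists_class_subset hE hC hn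
  refine ⟨j, i, n, i', w, ?_⟩
  have hunc : ¬ {z | E i' w z}.Countable := fun h => hw (hFI.countable h)
  have hval : ∀ y ∈ {y | E i' w y}, decode enum (t j (enum (ψ i y) n)) y = Z ∩ Iio y := by
    intro y hy
    have h1 : enum (ψ i y) n = φ y := hsub hy
    rw [h1, hφ, hdec]
  ext x
  simp only [mem_iUnion]
  constructor
  · intro hx
    obtain ⟨y, hy, hxy⟩ := exists_gt_mem hI hunc x
    refine ⟨y, hy, ?_⟩
    rw [hval y hy]
    exact ⟨hx, hxy⟩
  · rintro ⟨y, hy, hx⟩
    rw [hval y hy] at hx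
    exact hx.1

end Pool.Agent.Lib.MP_8f36f1_lc
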