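import Pool.Agent.Lib.MP_8f36f1_lc.Basic

/-!
# A cover of the Cantor space by nowhere dense sets

Auxiliary file for the problem MP_8f36f1_lc.
-/

open Set

universe u v

namespace Pool.Agent.Lib.MP_8f36f1_lc

open scoped Classical in
/-- The first coordinate which splits a non-separated set into two non-separated parts. -/
noncomputable def splitIdx {Ω : Type u} (I : Set Ω → Prop) (g : Ω → ℕ → Prop)
    (S : Set Ω) : ℕ :=
  if h : ∃ n, ¬ I (S ∩ {y | g y n}) ∧ ¬ I (S \ {y | g y n}) then Nat.find h else 0

/-- One of the two parts. -/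
noncomputable def part {Ω : Type u} (I : Set Ω → Prop) (g : Ω → ℕ → Prop)
    (S : Set Ω) (b : Bool) : Set Ω :=
  if b = true then S ∩ {y | g y (splitIdx I g S)} else S \ {y | g y (splitIdx I g S)}

/-- The tree of parts along a branch. -/
noncomputable def tree {Ω : Type u} (I : Set Ω → Prop) (g : Ω → ℕ → Prop)
    (x : ℕ → Bool) : ℕ → Set Ω
  | 0 => univ
  | k + 1 => part I g (tree I g x k) (x k)

/-- The first difference of two branches is at an even place. -/
def EvenDiff (a b : ℕ → Bool) : Prop :=
  ∃ k, Even k ∧ (∀ j < k, a j = b j) ∧ a k ≠ b k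

theorem evenDiff_iff {a b : ℕ → Bool} {k : ℕ} (h : ∀ j < k, a j = b j) (hk : a k ≠ b k) :
    EvenDiff a b ↔ Even k := by
  constructor
  · rintro ⟨k', hk', h1, h2⟩
    have : k = k' := by
      rcases lt_trichotomy k k' with hlt | heq | hgt
      · exact absurd (h1 k hlt) hk
      · exact heq
      · exact absurd (h k' hgt) h2
    rw [this]
    exact hk'
  · intro hev
    exact ⟨k, hev, h, hk⟩

section

variable {Ω : Type u} {ι : Type v} {E : ι → Ω → Ω → Prop} {I : Set Ω → Prop}
  {g : Ω → ℕ → Prop}

theorem part_subset (S : Set Ω) (b : Bool) : part I g S b ⊆ S := by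
  unfold part
  split_ifs
  · exact inter_subset_left
  · exact sdiff_subset

theorem exists_split (hg : Function.Injective g) (hFI : FullIdeal E I) {S : Set Ω} (hS : ¬ I S) :
    ∃ n, ¬ I (S ∩ {y | g y n}) ∧ ¬ I (S \ {y | g y n}) := by
  by_contra hcon
  push Not at hcon
  apply hS
  refine hFI.splits (fun n => {y | g y n}) ?_ S ?_
  · intro b
    refine hFI.subs _ ?_
    intro y hy z hz
    apply hg
    funext n
    exact propext ((hy n).trans (hz n).symm)
  · intro n
    by_cases h : I (S ∩ {y | g y n})
    · exact Or.inl h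
    · exact Or.inr (hcon n h)

open scoped Classical in
theorem splitIdx_spec (hg : Function.Injective g) (hFI : FullIdeal E I) {S : Set Ω} (hS : ¬ I S) :
    ¬ I (S ∩ {y | g y (splitIdx I g S)}) ∧ ¬ I (S \ {y | g y (splitIdx I g S)}) := by
  have h := exists_split hg hFI hS
  have h2 : splitIdx I g S = Nat.find h := by
    unfold splitIdx
    rw [dif_pos h]
  rw [h2]
  exact Nat.find_spec h

open scoped Classical in
theorem splitIdx_min (hg : Function.Injective g) (hFI : FullIdeal E I) {S : Set Ω} (hS : ¬ I S)
    {m : ℕ} (hm : m < splitIdx I g S) :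
    ¬ (¬ I (S ∩ {y | g y m}) ∧ ¬ I (S \ {y | g y m})) := by
  have h := exists_split hg hFI hS
  have h2 : splitIdx I g S = Nat.find h := by
    unfold splitIdx
    rw [dif_pos h]
  rw [h2] at hm
  exact Nat.find_min h hm

theorem part_not_sep (hg : Function.Injective g) (hFI : FullIdeal E I) {S : Set Ω} (hS : ¬ I S)
    (b : Bool) : ¬ I (part I g S b) := by
  unfold part
  split_ifs
  · exact (splitIdx_spec hg hFI hS).1
  · exact (splitIdx_spec hg hFI hS).2

theorem splitIdx_lt (hg : Function.Injective g) (hFI : FullIdeal E I) {S : Set Ω} (hS : ¬ I S)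
    (b : Bool) : splitIdx I g S < splitIdx I g (part I g S b) := by
  have h := splitIdx_spec hg hFI (part_not_sep hg hFI hS b)
  by_contra hcon
  rw [not_lt] at hcon
  rcases hcon.lt_or_eq with hlt | heq
  · apply splitIdx_min hg hFI hS hlt
    refine ⟨fun h' => h.1 (hFI.mono _ _ h' ?_), fun h' => h.2 (hFI.mono _ _ h' ?_)⟩
    · exact inter_subset_inter_left _ (part_subset S b)
    · exact sdiff_subset_sdiff_left (part_subset S b)
  · rw [heq] at h
    by_cases hb : b = true
    · apply h.2
      refine hFI.subs _ ?_
      rintro y ⟨hy, hy'⟩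
      unfold part at hy
      rw [if_pos hb] at hy
      exact absurd hy.2 hy'
    · apply h.1
      refine hFI.subs _ ?_
      rintro y ⟨hy, hy'⟩
      unfold part at hy
      rw [if_neg hb] at hy
      exact absurd hy' hy.2

theorem tree_not_sep (hg : Function.Injective g) (hFI : FullIdeal E I) (hns : ¬ I (univ : Set Ω))
    (x : ℕ → Bool) (k : ℕ) : ¬ I (tree I g x k) := by
  induction k with
  | zero => exact hns
  | succ k ih => exact part_not_sep hg hFI ih _

theorem le_splitIdx (hg : Function.Injective g) (hFI : FullIdeal E I) (hns : ¬ I (univ : Set Ω))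
    (x : ℕ → Bool) (k : ℕ) : k ≤ splitIdx I g (tree I g x k) := by
  induction k with
  | zero => exact Nat.zero_le _
  | succ k ih => exact lt_of_le_of_lt ih (splitIdx_lt hg hFI (tree_not_sep hg hFI hns x k) _)

theorem branch_sep (hg : Function.Injective g) (hFI : FullIdeal E I) (hns : ¬ I (univ : Set Ω))
    (x : ℕ → Bool) : I (⋂ k, tree I g x k) := by
  refine hFI.splits (fun n => {y | g y n}) ?_ _ ?_
  · intro b
    refine hFI.subs _ ?_
    intro y hy z hz
    apply hg
    funext n
    exact propext ((hy n).trans (hz n).symm)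
  · intro n
    have h1 : n < splitIdx I g (tree I g x (n + 1)) := le_splitIdx hg hFI hns x (n + 1)
    have h2 := splitIdx_min hg hFI (tree_not_sep hg hFI hns x (n + 1)) h1
    by_cases h3 : I (tree I g x (n + 1) ∩ {y | g y n})
    · left
      exact hFI.mono _ _ h3 (inter_subset_inter_left _ (iInter_subset _ _))
    · right
      have h4 : I (tree I g x (n + 1) \ {y | g y n}) := by
        by_contra h4
        exact h2 ⟨h3, h4⟩
      exact hFI.mono _ _ h4 (sdiff_subset_sdiff_left (iInter_subset _ _))

theorem tree_congr {x x' : ℕ → Bool} {k : ℕ} (h : ∀ j < k, x j = x' j) :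
    tree I g x k = tree I g x' k := by
  induction k with
  | zero => rfl
  | succ k ih =>
    show part I g (tree I g x k) (x k) = part I g (tree I g x' k) (x' k)
    rw [ih (fun j hj => h j (hj.trans (Nat.lt_succ_self k))), h k (Nat.lt_succ_self k)]

theorem exists_branch (y : Ω) : ∃ r : ℕ → Bool, ∀ k, y ∈ tree I g r k := by
  classical
  let G : ℕ → Set Ω := fun k => Nat.rec (motive := fun _ => Set Ω) univ
    (fun _ S => part I g S (decide (g y (splitIdx I g S)))) k
  have hG0 : G 0 = univ := rfl
  have hG1 : ∀ k, G (k + 1) = part I g (G k) (decide (g y (splitIdx I g (G k)))) := fun k => rfl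
  have hmem : ∀ k, y ∈ G k := by
    intro k
    induction k with
    | zero => exact mem_univ y
    | succ k ih =>
      rw [hG1]
      unfold part
      by_cases h : g y (splitIdx I g (G k))
      · rw [if_pos (decide_eq_true h)]
        exact ⟨ih, h⟩
      · rw [if_neg (by simpa using h)]
        exact ⟨ih, h⟩
  refine ⟨fun k => decide (g y (splitIdx I g (G k))), ?_⟩
  have heq : ∀ k, tree I g (fun k => decide (g y (splitIdx I g (G k)))) k = G k := by
    intro k
    induction k with
    | zero => rfl
    | succ k ih =>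
      rw [hG1, ← ih]
      show part I g _ _ = _
      rw [ih]
  intro k
  rw [heq]
  exact hmem k

theorem mem_tree_unique {y : Ω} {x x' : ℕ → Bool} {k : ℕ} (h : y ∈ tree I g x k)
    (h' : y ∈ tree I g x' k) : ∀ j < k, x j = x' j := by
  induction k with
  | zero => intro j hj; exact absurd hj (Nat.not_lt_zero j)
  | succ k ih =>
    have h1 : y ∈ part I g (tree I g x k) (x k) := h
    have h2 : y ∈ part I g (tree I g x' k) (x' k) := h'
    have h3 := ih (part_subset _ _ h1) (part_subset _ _ h2)
    have h4 : tree I g x k = tree I g x' k := tree_congr h3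
    intro j hj
    rcases Nat.lt_succ_iff_lt_or_eq.1 hj with hj | rfl
    · exact h3 j hj
    · rw [h4] at h1
      unfold part at h1 h2
      by_cases hx : x j = true <;> by_cases hx' : x' j = true
      · rw [hx, hx']
      · rw [if_pos hx] at h1
        rw [if_neg hx'] at h2
        exact absurd h1.2 h2.2
      · rw [if_neg hx] at h1
        rw [if_pos hx'] at h2
        exact absurd h2.2 h1.2
      · rw [Bool.not_eq_true] at hx hx'
        rw [hx, hx']

/-- If the whole set is not separated, then the Cantor space is covered by nowhere dense sets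
indexed by the family. -/
theorem exists_cover (hE : ∀ i, Equivalence (E i)) (hg : Function.Injective g) (hC : Capt E)
    (hFI : FullIdeal E I) (hns : ¬ I (univ : Set Ω)) :
    ∃ A : ι → Set (ℕ → Bool), (∀ i, IsNowhereDense (A i)) ∧ ⋃ i, A i = univ := by
  choose r hr using fun y : Ω => exists_branch (I := I) (g := g) y
  refine ⟨fun i => {x | ∀ y z, E i y z → (EvenDiff (r y) x ↔ EvenDiff (r z) x)}, ?_, ?_⟩
  · intro i
    show interior (closure _) = ∅
    rw [eq_empty_iff_forall_notMem]
    intro x0 hx0
    obtain ⟨V, ⟨x1, k0, rfl⟩, hx1, hV⟩ :=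
      (PiNat.isTopologicalBasis_cylinders (fun _ : ℕ => Bool)).exists_subset_of_mem_open hx0
        isOpen_interior
    obtain ⟨w, hw⟩ := hFI.exists_class (tree_not_sep hg hFI hns x1 k0) i
    -- two points with different branches
    have hex : ∃ y ∈ tree I g x1 k0 ∩ {z | E i w z}, ∃ z ∈ tree I g x1 k0 ∩ {z | E i w z},
        r y ≠ r z := by
      by_contra hcon
      push Not at hcon
      apply hw
      rcases (tree I g x1 k0 ∩ {z | E i w z}).eq_empty_or_nonempty with hem | ⟨y, hy⟩
      · rw [hem]
        exact hFI.subs _ subsingleton_empty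
      · refine hFI.mono _ _ (branch_sep hg hFI hns (r y)) ?_
        intro z hz
        rw [mem_iInter]
        intro k
        rw [hcon y hy z hz]
        exact hr z k
    obtain ⟨y, ⟨hy, hwy⟩, z, ⟨hz, hwz⟩, hyz⟩ := hex
    have hne : ∃ k, r y k ≠ r z k := by
      by_contra hcon
      push Not at hcon
      exact hyz (funext hcon)
    classical
    let k := Nat.find hne
    have hk : r y k ≠ r z k := Nat.find_spec hne
    have hk' : ∀ j < k, r y j = r z j := fun j hj => by
      by_contra h
      exact Nat.find_min hne hj h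
    have hyx : ∀ j < k0, r y j = x1 j := mem_tree_unique (hr y k0) hy
    have hzx : ∀ j < k0, r z j = x1 j := mem_tree_unique (hr z k0) hz
    have hkk0 : k0 ≤ k := by
      by_contra hlt
      rw [not_le] at hlt
      exact hk ((hyx k hlt).trans (hzx k hlt).symm)
    let x' : ℕ → Bool := fun j => if j < k + 1 then r y j else ! (r y j)
    have hx'1 : x' ∈ PiNat.cylinder x1 k0 := by
      intro j hj
      have hj' : j < k + 1 := by omega
      show (if j < k + 1 then r y j else ! (r y j)) = x1 j
      rw [if_pos hj']
      exact hyx j hj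
    have hx'2 : x' ∈ closure {x | ∀ y z, E i y z → (EvenDiff (r y) x ↔ EvenDiff (r z) x)} :=
      interior_subset (hV hx'1)
    rw [mem_closure_iff] at hx'2
    obtain ⟨x, hx, hxX⟩ := hx'2 (PiNat.cylinder x' (k + 2)) (PiNat.isOpen_cylinder _ x' (k + 2))
      (PiNat.self_mem_cylinder x' (k + 2))
    have hx2 : ∀ j < k + 1, r y j = x j := by
      intro j hj
      have h1 := hx j (by omega)
      have h2 : x' j = r y j := if_pos hj
      rw [h1, h2]
    have hx3 : r y (k + 1) ≠ x (k + 1) := by
      have h1 := hx (k + 1) (by omega)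
      have h2 : x' (k + 1) = ! (r y (k + 1)) := if_neg (by omega)
      rw [h1, h2]
      simp
    have hx4 : ∀ j < k, r z j = x j := fun j hj => (hk' j hj).symm.trans (hx2 j (by omega))
    have hx5 : r z k ≠ x k := by
      rw [← hx2 k (by omega)]
      exact fun h => hk h.symm
    have hEyz : E i y z := (hE i).trans ((hE i).symm hwy) hwz
    have hiff := hxX y z hEyz
    rw [evenDiff_iff hx2 hx3, evenDiff_iff hx4 hx5, Nat.even_add_one] at hiff
    exact (iff_not_self hiff.symm).elim
  · rw [eq_univ_iff_forall]
    intro x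
    obtain ⟨i, hi⟩ := hC {y | EvenDiff (r y) x}
    exact mem_iUnion.2 ⟨i, fun y z h => hi y z h⟩

end

end Pool.Agent.Lib.MP_8f36f1_lc
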