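import Pool.Agent.Lib.MP_8f36f1_lc.Top
import Pool.Agent.Lib.MP_8f36f1_lc.Code
import Pool.Agent.Lib.MP_8f36f1_lc.CovM
import Pool.Agent.Lib.MP_8f36f1_lc.Arith

/-!
# Bounds for the size of a witnessing family

Auxiliary file for the problem MP_8f36f1_lc.
-/

open Set Cardinal Topology

universe u

namespace Pool.Agent.Lib.MP_8f36f1_lc

/-! ### The bounds for capturing families on the first uncountable ordinal -/

section W

variable {ι : Type u} {E : ι → W1.{u} → W1.{u} → Prop} {I : Set W1.{u} → Prop}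

theorem domOne_le (hC : Capt E) (hFI : FullIdeal E I) (hns : ¬ I Set.univ) : domOne.{u} ≤ #ι := by
  obtain ⟨g, hg⟩ := w1_inj.{u}
  choose ψ hψ using fun i => exists_nextFun w1_iio w1_uncountable (E i)
  have h1 : domOne.{u} ≤ #(range ψ) := by
    refine csInf_le' ⟨range ψ, rfl, ?_⟩
    intro f
    obtain ⟨i, hi⟩ := exists_dominates w1_iio w1_uncountable g hg hC hFI hns ψ hψ f
    refine ⟨ψ i, mem_range_self i, ?_⟩
    simpa using hi
  exact h1.trans mk_range_le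

theorem reapOne_le (hE : ∀ i, Equivalence (E i)) (hC : Capt E) (hFI : FullIdeal E I)
    (hns : ¬ I Set.univ) : reapOne.{u} ≤ #ι := by
  choose y hy using fun i => hFI.exists_class hns i
  have h1 : reapOne.{u} ≤ #(range (fun i => {z | E i (y i) z})) := by
    refine csInf_le' ⟨range (fun i => {z | E i (y i) z}), rfl, ?_, ?_⟩
    · rintro _ ⟨i, rfl⟩ hc
      exact hy i (hFI.mono _ _ (hFI.countable hc) inter_subset_right)
    · intro Z
      obtain ⟨i, hi⟩ := hC Z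
      refine ⟨_, mem_range_self i, ?_⟩
      by_cases hyZ : y i ∈ Z
      · left
        have : {z | E i (y i) z} \ Z = ∅ := by
          rw [eq_empty_iff_forall_notMem]
          rintro z ⟨hz, hzZ⟩
          exact hzZ ((hi _ _ hz).1 hyZ)
        rw [this]
        exact countable_empty
      · right
        have : {z | E i (y i) z} ∩ Z = ∅ := by
          rw [eq_empty_iff_forall_notMem]
          rintro z ⟨hz, hzZ⟩
          exact hyZ ((hi _ _ hz).2 hzZ)
        rw [this]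
        exact countable_empty
  exact h1.trans mk_range_le

theorem covMeagre_le (hE : ∀ i, Equivalence (E i)) (hC : Capt E) (hFI : FullIdeal E I)
    (hns : ¬ I Set.univ) : Cardinal.lift.{u} covMeagre ≤ #ι := by
  obtain ⟨g, hg⟩ := w1_inj.{u}
  obtain ⟨A, hA, hAu⟩ := exists_cover hE hg hC hFI hns
  have h1 : covMeagre ≤ #(range A) := by
    refine csInf_le' ⟨range A, rfl, ?_, ?_⟩
    · rintro _ ⟨i, rfl⟩
      exact (hA i).isMeagre
    · rw [sUnion_range]
      exact hAu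
  have h2 : Cardinal.lift.{u} #(range A) ≤ Cardinal.lift.{0} #ι := mk_range_le_lift
  rw [lift_uzero] at h2
  exact (lift_le.2 h1).trans h2

theorem exists_cofSmall (μ : Cardinal.{u}) :
    ∃ C : Set (Set μ.out), #C = cofSmall μ ∧ (∀ A ∈ C, #A ≤ ℵ₁) ∧
      ∀ D : Set μ.out, #D ≤ ℵ₁ → ∃ A ∈ C, D ⊆ A := by
  have h : cofSmall μ ∈ {κ | ∃ C : Set (Set μ.out), #C = κ ∧ (∀ A ∈ C, #A ≤ ℵ₁) ∧
      ∀ D : Set μ.out, #D ≤ ℵ₁ → ∃ A ∈ C, D ⊆ A} :=
    csInf_mem ⟨_, {A | #A ≤ ℵ₁}, rfl, fun A hA => hA, fun D hD => ⟨D, hD, Subset.rfl⟩⟩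
  exact h

theorem power_le (hE : ∀ i, Equivalence (E i)) (hC : Capt E) (hFI : FullIdeal E I)
    (hns : ¬ I Set.univ) :
    (2 : Cardinal.{u}) ^ (ℵ₁ : Cardinal.{u}) ≤ max #ι (cofSmall (2 ^ ℵ₀)) := by
  obtain ⟨g, hg⟩ := w1_inj.{u}
  choose ψ hψ using fun i => exists_nextFun w1_iio w1_uncountable (E i)
  obtain ⟨enum, henum⟩ := w1_enum.{u}
  obtain ⟨C, hCc, hC1, hC2⟩ := exists_cofSmall.{u} (2 ^ ℵ₀)
  -- the continuum as a type in the universe `u`
  obtain ⟨τ⟩ : Nonempty (((2 : Cardinal.{u}) ^ ℵ₀).out ≃ (ℕ → Prop)) := by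
    rw [← lift_mk_eq'.{u, 0}, mk_out, lift_uzero]
    simp
  -- enumerations of the members of the cofinal family
  have ht : ∀ A : C, ∃ t : W1.{u} → ℕ → Prop, τ '' A.1 ⊆ range t := by
    intro A
    have h1 : #(τ '' A.1 : Set (ℕ → Prop)) ≤ #(ℕ → Prop) := mk_set_le _
    have h2 : Cardinal.lift.{u} #(τ '' A.1 : Set (ℕ → Prop)) ≤ Cardinal.lift.{0} #W1.{u} := by
      rw [lift_uzero, w1_card]
      refine le_trans ?_ (hC1 A.1 A.2)
      have := mk_image_le_lift (f := τ) (s := A.1)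
      rwa [lift_uzero] at this
    rcases (τ '' A.1).eq_empty_or_nonempty with hem | hne
    · exact ⟨fun _ _ => True, by rw [hem]; exact empty_subset _⟩
    · have : Nonempty (τ '' A.1) := hne.to_subtype
      obtain ⟨j⟩ := lift_mk_le'.1 h2
      refine ⟨fun w => (Function.invFun j w : τ '' A.1), ?_⟩
      intro x hx
      refine ⟨j ⟨x, hx⟩, ?_⟩
      simp only
      rw [Function.leftInverse_invFun j.injective ⟨x, hx⟩]
  choose t ht using ht
  have ht' : ∀ f : W1.{u} → ℕ → Prop, ∃ j : C, range f ⊆ range (t j) := by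
    intro f
    obtain ⟨A, hA, hfA⟩ := hC2 (range fun w => τ.symm (f w)) (mk_range_le.trans w1_card.le)
    refine ⟨⟨A, hA⟩, ?_⟩
    refine Subset.trans ?_ (ht ⟨A, hA⟩)
    rintro _ ⟨w, rfl⟩
    exact ⟨τ.symm (f w), hfA (mem_range_self w), τ.apply_symm_apply _⟩
  -- the coding
  have hcode := exists_code w1_iio w1_uncountable g hg hE hC hFI hns ψ hψ enum henum t ht'
  let dec : C × ι × ℕ × ι × W1.{u} → Set W1.{u} := fun p =>
    ⋃ y ∈ {y | E p.2.2.2.1 p.2.2.2.2 y}, decode enum (t p.1 (enum (ψ p.2.1 y) p.2.2.1)) y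
  have hsurj : Function.Surjective dec := by
    intro Z
    obtain ⟨j, i, n, i', w, hZ⟩ := hcode Z
    exact ⟨(j, i, n, i', w), hZ.symm⟩
  have hcard : (2 : Cardinal.{u}) ^ (ℵ₁ : Cardinal.{u}) ≤ #(C × ι × ℕ × ι × W1.{u}) := by
    have := mk_le_of_surjective hsurj
    rwa [mk_set, w1_card] at this
  set M : Cardinal.{u} := max (max #ι (cofSmall (2 ^ ℵ₀))) ℵ₁ with hM
  have hM0 : ℵ₀ ≤ M := aleph0_lt_aleph_one.le.trans (le_max_right _ _)
  have h1 : #(C × ι × ℕ × ι × W1.{u}) ≤ M := by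
    simp only [mk_prod, lift_id, lift_uzero, mk_nat, lift_aleph0, w1_card, hCc]
    refine mul_le_of_le hM0 ((le_max_right _ _).trans (le_max_left _ _)) ?_
    refine mul_le_of_le hM0 ((le_max_left _ _).trans (le_max_left _ _)) ?_
    refine mul_le_of_le hM0 hM0 ?_
    refine mul_le_of_le hM0 ((le_max_left _ _).trans (le_max_left _ _)) ?_
    exact le_max_right _ _
  have h2 := hcard.trans h1
  rcases le_max_iff.1 h2 with h3 | h3
  · exact h3
  · exact absurd h3 (not_le.2 (cantor _))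

theorem cofSmall_le {θ : Cardinal.{u}} (hθ : θ ^ ℵ₀ ≤ θ) (hθ1 : ℵ₁ ≤ θ)
    (hθ2 : θ < ℵ_ (Ordinal.omega 1)) : cofSmall θ ≤ θ := by
  obtain ⟨α, hα⟩ := mem_range_aleph_iff.2 (aleph0_lt_aleph_one.le.trans hθ1)
  have hα1 : α < Ordinal.omega 1 := by
    rw [← hα] at hθ2
    exact aleph_lt_aleph.1 hθ2
  obtain ⟨C, h1, h2, h3⟩ := hasCof_of_lt (T := θ.out) hθ hθ1 α hα1 hα.le Set.univ
    (by rw [mk_univ, mk_out, hα])
  have h4 : cofSmall θ ≤ #C := csInf_le' ⟨C, rfl, h2, fun D hD => h3 D (subset_univ D) hD⟩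
  exact h4.trans h1

end W

/-! ### The bounds for witnessing families -/

section

variable {X : Type u} [TopologicalSpace X] {Y : Set X} {B : Y → Set (Set X)}
  {F : Set (Y → Set X)}

theorem Setting.exists_w1 (h : Setting X Y B F) (hns : ¬ Separated Y) :
    ∃ (E : F → W1.{u} → W1.{u} → Prop) (I : Set W1.{u} → Prop), (∀ f, Equivalence (E f)) ∧
      Capt E ∧ FullIdeal E I ∧ ¬ I Set.univ := by
  obtain ⟨e⟩ := exists_equiv_w1 h.card
  refine ⟨_, _, equiv_transport e (fun f : F => comp_equiv f.1), h.capt.transport e,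
    h.fullIdeal.transport e, ?_⟩
  rw [preimage_univ, ← separated_iff]
  exact hns

theorem Setting.domOne_le (h : Setting X Y B F) (hns : ¬ Separated Y) : domOne.{u} ≤ #F := by
  obtain ⟨E, I, hE, hC, hFI, hI⟩ := h.exists_w1 hns
  exact MP_8f36f1_lc.domOne_le hC hFI hI

theorem Setting.reapOne_le (h : Setting X Y B F) (hns : ¬ Separated Y) : reapOne.{u} ≤ #F := by
  obtain ⟨E, I, hE, hC, hFI, hI⟩ := h.exists_w1 hns
  exact MP_8f36f1_lc.reapOne_le hE hC hFI hI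

theorem Setting.covMeagre_le (h : Setting X Y B F) (hns : ¬ Separated Y) :
    Cardinal.lift.{u} covMeagre ≤ #F := by
  obtain ⟨E, I, hE, hC, hFI, hI⟩ := h.exists_w1 hns
  exact MP_8f36f1_lc.covMeagre_le hE hC hFI hI

theorem Setting.power_le (h : Setting X Y B F) (hns : ¬ Separated Y) :
    (2 : Cardinal.{u}) ^ (ℵ₁ : Cardinal.{u}) ≤ max #F (cofSmall (2 ^ ℵ₀)) := by
  obtain ⟨E, I, hE, hC, hFI, hI⟩ := h.exists_w1 hns
  exact MP_8f36f1_lc.power_le hE hC hFI hI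

theorem Setting.power_eq_or_le (h : Setting X Y B F) (hns : ¬ Separated Y)
    (hF : #F < 2 ^ (ℵ₁ : Cardinal.{u})) :
    (2 : Cardinal.{u}) ^ (ℵ₀ : Cardinal.{u}) = 2 ^ (ℵ₁ : Cardinal.{u}) ∨
      ℵ_ (Ordinal.omega 1) ≤ (2 : Cardinal.{u}) ^ (ℵ₀ : Cardinal.{u}) := by
  by_contra hcon
  push Not at hcon
  obtain ⟨h1, h2⟩ := hcon
  have h3 : (2 : Cardinal.{u}) ^ (ℵ₀ : Cardinal.{u}) ≤ 2 ^ (ℵ₁ : Cardinal.{u}) :=
    power_le_power_left two_ne_zero aleph0_lt_aleph_one.le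
  have h4 := h3.lt_of_ne h1
  have h5 : cofSmall ((2 : Cardinal.{u}) ^ ℵ₀) ≤ 2 ^ ℵ₀ := by
    refine cofSmall_le ?_ ?_ h2
    · rw [← power_mul, aleph0_mul_aleph0]
    · rw [aleph_one_le_iff]
      exact cantor _
  rcases le_max_iff.1 (h.power_le hns) with h6 | h6
  · exact absurd h6 (not_le.2 hF)
  · exact absurd (h6.trans h5) (not_le.2 h4)

end

end Pool.Agent.Lib.MP_8f36f1_lc
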