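import Pool.Agent.Lib.MP_8f36f1_lc.Defs
import Pool.Agent.Lib.MP_8f36f1_lc.Basic

/-!
# The space of a capturing family

Auxiliary file for the problem MP_8f36f1_lc.
-/

open Set Cardinal Topology

universe u v

namespace Pool.Agent.Lib.MP_8f36f1_lc

section Root

variable {Ω : Type u} {ι : Type v} {E : ι → Ω → Ω → Prop} {I : Set Ω → Prop}

theorem FullIdeal.biUnion_finset (h : FullIdeal E I) (t : Finset ι) (S : ι → Set Ω)
    (hS : ∀ i ∈ t, I (S i)) : I (⋃ i ∈ t, S i) := by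
  classical
  induction t using Finset.induction_on with
  | empty =>
    refine h.subs _ ?_
    simp
  | insert a t ha ih =>
    rw [Finset.set_biUnion_insert]
    exact h.union (hS a (Finset.mem_insert_self _ _))
      (ih fun i hi => hS i (Finset.mem_insert_of_mem hi))

theorem FullIdeal.exists_pair_card (h : FullIdeal E I) (hE : ∀ i, Equivalence (E i)) (n : ℕ) :
    ∀ (S : Set Ω) (s : Ω → Finset ι), ¬ I S → (∀ y ∈ S, (s y).card ≤ n) →
      ∃ y ∈ S, ∃ z ∈ S, y ≠ z ∧ ∀ i ∈ s y, i ∈ s z → E i y z := by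
  classical
  induction n with
  | zero =>
    intro S s hS hs
    have h1 : ¬ S.Subsingleton := fun h' => hS (h.subs S h')
    rw [not_subsingleton_iff] at h1
    obtain ⟨y, hy, z, hz, hyz⟩ := h1
    refine ⟨y, hy, z, hz, hyz, fun i hi => ?_⟩
    have h2 := hs y hy
    rw [Nat.le_zero, Finset.card_eq_zero] at h2
    rw [h2] at hi
    exact absurd hi (Finset.notMem_empty i)
  | succ n ih =>
    intro S s hS hs
    by_cases hex : ∃ i, ¬ I (S ∩ {y | i ∈ s y})
    · obtain ⟨i, hi⟩ := hex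
      obtain ⟨w, hw⟩ := h.exists_class hi i
      obtain ⟨y, hy, z, hz, hyz, hall⟩ := ih (S ∩ {y | i ∈ s y} ∩ {z | E i w z})
        (fun y => (s y).erase i) hw (by
          rintro y ⟨⟨hy, hiy⟩, _⟩
          have h1 := hs y hy
          have h2 : ((s y).erase i).card = (s y).card - 1 := Finset.card_erase_of_mem hiy
          omega)
      refine ⟨y, hy.1.1, z, hz.1.1, hyz, ?_⟩
      intro j hj hj'
      by_cases hji : j = i
      · subst hji
        exact (hE j).trans ((hE j).symm hy.2) hz.2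
      · exact hall j (Finset.mem_erase.2 ⟨hji, hj⟩) (Finset.mem_erase.2 ⟨hji, hj'⟩)
    · push Not at hex
      have hne : S.Nonempty := by
        rw [nonempty_iff_ne_empty]
        rintro rfl
        exact hS (h.subs _ subsingleton_empty)
      obtain ⟨y, hy⟩ := hne
      have h1 : I ((⋃ i ∈ s y, (S ∩ {z | i ∈ s z})) ∪ {y}) :=
        h.union (h.biUnion_finset (s y) _ fun i _ => hex i) (h.subs _ subsingleton_singleton)
      have h2 : ¬ S ⊆ (⋃ i ∈ s y, (S ∩ {z | i ∈ s z})) ∪ {y} :=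
        fun h' => hS (h.mono _ _ h1 h')
      obtain ⟨z, hz, hz'⟩ := not_subset.1 h2
      refine ⟨y, hy, z, hz, ?_, ?_⟩
      · rintro rfl
        exact hz' (Or.inr rfl)
      · intro i hi hi'
        have h3 : z ∈ (⋃ i ∈ s y, (S ∩ {z | i ∈ s z})) ∪ {y} :=
          Or.inl (mem_iUnion₂.2 ⟨i, hi, hz, hi'⟩)
        exact absurd h3 hz'

theorem FullIdeal.exists_pair (h : FullIdeal E I) (hE : ∀ i, Equivalence (E i))
    (S : Set Ω) (s : Ω → Finset ι) (hS : ¬ I S) :
    ∃ y ∈ S, ∃ z ∈ S, y ≠ z ∧ ∀ i ∈ s y, i ∈ s z → E i y z := by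
  have h1 : ∃ n, ¬ I (S ∩ {y | (s y).card ≤ n}) := by
    by_contra hcon
    push Not at hcon
    refine hS (h.mono _ _ (h.iUnion _ hcon) ?_)
    intro y hy
    exact mem_iUnion.2 ⟨(s y).card, hy, (le_refl (s y).card : (s y).card ≤ (s y).card)⟩
  obtain ⟨n, hn⟩ := h1
  obtain ⟨y, hy, z, hz, h2⟩ := h.exists_pair_card hE n _ s hn (fun y hy => hy.2)
  exact ⟨y, hy.1, z, hz.1, h2⟩

end Root

section Sep

variable {Ω : Type u} {ι : Type v} {E : ι → Ω → Ω → Prop}

/-- The set `S` is separated by the family `E`: finitely many relations at each point. -/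
def Sep (E : ι → Ω → Ω → Prop) (S : Set Ω) : Prop :=
  ∃ s : Ω → Finset ι, ∀ y ∈ S, ∀ z ∈ S, y ≠ z → ∃ i ∈ s y, i ∈ s z ∧ ¬ E i y z

theorem Sep.mono {S T : Set Ω} (h : Sep E T) (hST : S ⊆ T) : Sep E S := by
  obtain ⟨s, hs⟩ := h
  exact ⟨s, fun y hy z hz hyz => hs y (hST hy) z (hST hz) hyz⟩

theorem sep_iUnion_disjoint (hC : Capt E) (S : ℕ → Set Ω)
    (hd : ∀ m n, m ≠ n → Disjoint (S m) (S n))
    (h : ∀ n, Sep E (S n)) : Sep E (⋃ n, S n) := by
  classical
  choose s hs using h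
  choose c hc using fun n => hC (S n)
  have hN : ∀ y : Ω, ∃ n, y ∈ (⋃ n, S n) → y ∈ S n := by
    intro y
    by_cases hy : y ∈ ⋃ n, S n
    · obtain ⟨n, hn⟩ := mem_iUnion.1 hy
      exact ⟨n, fun _ => hn⟩
    · exact ⟨0, fun h => absurd h hy⟩
  choose N hN using hN
  refine ⟨fun y => s (N y) y ∪ (Finset.range (N y + 1)).image c, ?_⟩
  intro y hy z hz hyz
  have hy' := hN y hy
  have hz' := hN z hz
  rcases lt_trichotomy (N y) (N z) with hlt | heq | hgt
  · refine ⟨c (N y), ?_, ?_, ?_⟩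
    · exact Finset.mem_union_right _ (Finset.mem_image_of_mem _ (Finset.mem_range.2 (by omega)))
    · exact Finset.mem_union_right _ (Finset.mem_image_of_mem _ (Finset.mem_range.2 (by omega)))
    · intro hE
      have := (hc (N y) y z hE).1 hy'
      exact (Set.disjoint_left.1 (hd _ _ hlt.ne) this) hz'
  · rw [← heq] at hz'
    obtain ⟨i, hi, hi', hiE⟩ := hs (N y) y hy' z hz' hyz
    refine ⟨i, Finset.mem_union_left _ hi, ?_, hiE⟩
    have : i ∈ s (N z) z := by rw [← heq]; exact hi'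
    exact Finset.mem_union_left _ this
  · refine ⟨c (N z), ?_, ?_, ?_⟩
    · exact Finset.mem_union_right _ (Finset.mem_image_of_mem _ (Finset.mem_range.2 (by omega)))
    · exact Finset.mem_union_right _ (Finset.mem_image_of_mem _ (Finset.mem_range.2 (by omega)))
    · intro hE
      have := (hc (N z) y z hE).2 hz'
      exact (Set.disjoint_left.1 (hd _ _ hgt.ne) this) hy'

theorem sep_fullIdeal (hE : ∀ i, Equivalence (E i)) (hC : Capt E) : FullIdeal E (Sep E) where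
  mono := fun S T hT hST => hT.mono hST
  subs := fun S hS => ⟨fun _ => ∅, fun _ hy _ hz hyz => absurd (hS hy hz) hyz⟩
  iUnion := by
    intro S hS
    rw [← iUnion_disjointed]
    refine sep_iUnion_disjoint hC _ ?_ ?_
    · intro m n hmn
      exact disjoint_disjointed S hmn
    · intro n
      exact (hS n).mono (disjointed_subset S n)
  full := by
    classical
    intro i S h
    choose s hs using h
    let st : Setoid Ω := ⟨E i, hE i⟩
    let rep : Ω → Ω := fun y => (Quotient.mk st y).out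
    have hrep : ∀ y, E i (rep y) y := fun y => Quotient.mk_out (s := st) y
    have hrep' : ∀ y z, E i y z → rep y = rep z := by
      intro y z hyz
      have : Quotient.mk st y = Quotient.mk st z := Quotient.sound hyz
      simp only [rep, this]
    refine ⟨fun y => insert i (s (rep y) y), ?_⟩
    intro y hy z hz hyz
    by_cases hEi : E i y z
    · have h1 : y ∈ S ∩ {z | E i (rep y) z} := ⟨hy, hrep y⟩
      have h2 : z ∈ S ∩ {z | E i (rep y) z} := ⟨hz, by
        rw [hrep' y z hEi]; exact hrep z⟩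
      obtain ⟨j, hj, hj', hjE⟩ := hs (rep y) y h1 z h2 hyz
      refine ⟨j, Finset.mem_insert_of_mem hj, ?_, hjE⟩
      have : j ∈ s (rep z) z := by rw [← hrep' y z hEi]; exact hj'
      exact Finset.mem_insert_of_mem this
    · exact ⟨i, Finset.mem_insert_self _ _, Finset.mem_insert_self _ _, hEi⟩

end Sep

section Space

variable {Ω : Type u} {ι : Type u}

/-- The isolated points of the space. -/
def Iso (E : ι → Ω → Ω → Prop) : Type u :=
  {p : (Ω × Ω) × (Finset ι × Finset ι) //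
    p.1.1 ≠ p.1.2 ∧ ∀ i ∈ p.2.1, i ∈ p.2.2 → E i p.1.1 p.1.2}

/-- The points of the space. -/
def Pt (E : ι → Ω → Ω → Prop) : Type u := Ω ⊕ Iso E

variable (E : ι → Ω → Ω → Prop)

/-- The point of the space given by a point of `Ω`. -/
def Pt.pt (y : Ω) : Pt E := Sum.inl y

/-- The isolated points of the space. -/
def Pt.iso (p : Iso E) : Pt E := Sum.inr p

/-- The basic neighbourhoods of the points of `Ω`. -/
def nb (y : Ω) (s : Finset ι) : Set (Pt E) :=
  {x | x = Pt.pt E y ∨ ∃ p : Iso E, x = Pt.iso E p ∧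
    ((p.1.1.1 = y ∧ s ⊆ p.1.2.1) ∨ (p.1.1.2 = y ∧ s ⊆ p.1.2.2))}

variable {E}

theorem pt_mem_nb {y z : Ω} {s : Finset ι} : Pt.pt E z ∈ nb E y s ↔ z = y := by
  constructor
  · rintro (h | ⟨p, h, _⟩)
    · exact Sum.inl.inj h
    · exact absurd h (by simp [Pt.pt, Pt.iso])
  · rintro rfl
    exact Or.inl rfl

theorem iso_mem_nb {y : Ω} {p : Iso E} {s : Finset ι} :
    Pt.iso E p ∈ nb E y s ↔ (p.1.1.1 = y ∧ s ⊆ p.1.2.1) ∨ (p.1.1.2 = y ∧ s ⊆ p.1.2.2) := by
  constructor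
  · rintro (h | ⟨q, h, h'⟩)
    · exact absurd h (by simp [Pt.pt, Pt.iso])
    · rw [Sum.inr.inj h]
      exact h'
  · intro h
    exact Or.inr ⟨p, rfl, h⟩

theorem nb_anti (y : Ω) {s t : Finset ι} (h : s ⊆ t) : nb E y t ⊆ nb E y s := by
  rintro x (hx | ⟨p, hx, h'⟩)
  · exact Or.inl hx
  · refine Or.inr ⟨p, hx, ?_⟩
    rcases h' with ⟨h1, h2⟩ | ⟨h1, h2⟩
    · exact Or.inl ⟨h1, h.trans h2⟩
    · exact Or.inr ⟨h1, h.trans h2⟩

instance : TopologicalSpace (Pt E) where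
  IsOpen U := ∀ y, Pt.pt E y ∈ U → ∃ s, nb E y s ⊆ U
  isOpen_univ := fun y _ => ⟨∅, subset_univ _⟩
  isOpen_inter := by
    classical
    intro U V hU hV y hy
    obtain ⟨s, hs⟩ := hU y hy.1
    obtain ⟨t, ht⟩ := hV y hy.2
    exact ⟨s ∪ t, subset_inter ((nb_anti y Finset.subset_union_left).trans hs)
      ((nb_anti y Finset.subset_union_right).trans ht)⟩
  isOpen_sUnion := by
    intro C hC y hy
    obtain ⟨U, hU, hyU⟩ := hy
    obtain ⟨s, hs⟩ := hC U hU y hyU
    exact ⟨s, hs.trans (subset_sUnion_of_mem hU)⟩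

theorem isOpen_iff' {U : Set (Pt E)} : IsOpen U ↔ ∀ y, Pt.pt E y ∈ U → ∃ s, nb E y s ⊆ U :=
  Iff.rfl

theorem isOpen_nb (y : Ω) (s : Finset ι) : IsOpen (nb E y s) := by
  intro z hz
  rw [pt_mem_nb] at hz
  subst hz
  exact ⟨s, Subset.rfl⟩

/-- The set of the non-isolated points. -/
def Pt.main (E : ι → Ω → Ω → Prop) : Set (Pt E) := range (Pt.pt E)

theorem isOpen_of_disjoint {U : Set (Pt E)} (h : Disjoint U (Pt.main E)) : IsOpen U := by
  intro y hy
  exact absurd (mem_range_self y) (Set.disjoint_left.1 h hy)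

theorem isClosed_main : IsClosed (Pt.main E) := by
  rw [← isOpen_compl_iff]
  exact isOpen_of_disjoint disjoint_compl_left

theorem pt_or_iso (x : Pt E) : (∃ y, x = Pt.pt E y) ∨ ∃ p, x = Pt.iso E p := by
  rcases x with y | p
  · exact Or.inl ⟨y, rfl⟩
  · exact Or.inr ⟨p, rfl⟩

theorem disjoint_nb {i : ι} (hE : Equivalence (E i)) {y z : Ω} (h : ¬ E i y z) :
    Disjoint (nb E y {i}) (nb E z {i}) := by
  rw [Set.disjoint_left]
  intro x hx hx'
  rcases pt_or_iso x with ⟨w, rfl⟩ | ⟨p, rfl⟩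
  · rw [pt_mem_nb] at hx hx'
    rw [← hx, ← hx'] at h
    exact h (hE.refl _)
  · rw [iso_mem_nb] at hx hx'
    simp only [Finset.singleton_subset_iff] at hx hx'
    have hp := p.2.2 i
    rcases hx with ⟨h1, h2⟩ | ⟨h1, h2⟩ <;> rcases hx' with ⟨h3, h4⟩ | ⟨h3, h4⟩
    · exact h (by rw [← h1, ← h3]; exact hE.refl _)
    · exact h (by rw [← h1, ← h3]; exact hp h2 h4)
    · exact h (by rw [← h1, ← h3]; exact hE.symm (hp h4 h2))
    · exact h (by rw [← h1, ← h3]; exact hE.refl _)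

theorem Capt.exists_notMem (hC : Capt E) (hns : ¬ Sep E (univ : Set Ω)) (s : Finset ι) :
    ∃ i, i ∉ s := by
  by_contra hcon
  push Not at hcon
  apply hns
  refine ⟨fun _ => s, fun y _ z _ hyz => ?_⟩
  obtain ⟨i, hi⟩ := hC {y}
  refine ⟨i, hcon i, hcon i, fun hE => ?_⟩
  exact hyz ((hi y z hE).1 rfl).symm

theorem t1Space (hC : Capt E) (hns : ¬ Sep E (univ : Set Ω)) : T1Space (Pt E) := by
  refine ⟨fun x => ?_⟩
  rw [← isOpen_compl_iff]
  intro y hy
  rcases pt_or_iso x with ⟨w, rfl⟩ | ⟨p, rfl⟩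
  · refine ⟨∅, ?_⟩
    intro v hv hvw
    rw [mem_singleton_iff] at hvw
    subst hvw
    rw [pt_mem_nb] at hv
    subst hv
    exact hy rfl
  · classical
    obtain ⟨i, hi⟩ := hC.exists_notMem hns (p.1.2.1 ∪ p.1.2.2)
    refine ⟨{i}, ?_⟩
    intro v hv hvw
    rw [mem_singleton_iff] at hvw
    subst hvw
    rw [iso_mem_nb] at hv
    simp only [Finset.singleton_subset_iff] at hv
    rcases hv with ⟨_, h2⟩ | ⟨_, h2⟩
    · exact hi (Finset.mem_union_left _ h2)
    · exact hi (Finset.mem_union_right _ h2)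

theorem normalSpace (hE : ∀ i, Equivalence (E i)) (hC : Capt E) : NormalSpace (Pt E) := by
  refine ⟨fun A B hA hB hAB => ?_⟩
  obtain ⟨i, hi⟩ := hC {y | Pt.pt E y ∈ A}
  have hd : Disjoint (⋃ z ∈ {y | Pt.pt E y ∈ A}, nb E z {i})
      (⋃ z ∈ {y | Pt.pt E y ∉ A}, nb E z {i}) := by
    rw [Set.disjoint_left]
    intro x hx hx'
    simp only [mem_iUnion] at hx hx'
    obtain ⟨y, hy, hxy⟩ := hx
    obtain ⟨z, hz, hxz⟩ := hx'
    refine Set.disjoint_left.1 (disjoint_nb (hE i) ?_) hxy hxz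
    intro hyz
    exact hz ((hi y z hyz).1 hy)
  refine ⟨((⋃ z ∈ {y | Pt.pt E y ∈ A}, nb E z {i}) \ B) ∪ (A \ Pt.main E),
    ((⋃ z ∈ {y | Pt.pt E y ∉ A}, nb E z {i}) \ A) ∪ (B \ Pt.main E), ?_, ?_, ?_, ?_, ?_⟩
  · refine IsOpen.union (IsOpen.sdiff ?_ hB) (isOpen_of_disjoint disjoint_sdiff_left)
    exact isOpen_biUnion fun z _ => isOpen_nb z {i}
  · refine IsOpen.union (IsOpen.sdiff ?_ hA) (isOpen_of_disjoint disjoint_sdiff_left)
    exact isOpen_biUnion fun z _ => isOpen_nb z {i}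
  · intro x hx
    rcases pt_or_iso x with ⟨w, rfl⟩ | ⟨p, rfl⟩
    · left
      refine ⟨?_, Set.disjoint_left.1 hAB hx⟩
      exact mem_biUnion (x := w) hx (pt_mem_nb.2 rfl)
    · right
      refine ⟨hx, ?_⟩
      rintro ⟨y, hy⟩
      exact absurd hy (by simp [Pt.pt, Pt.iso])
  · intro x hx
    have hxA : x ∉ A := Set.disjoint_right.1 hAB hx
    rcases pt_or_iso x with ⟨w, rfl⟩ | ⟨p, rfl⟩
    · left
      refine ⟨?_, hxA⟩
      exact mem_biUnion (x := w) hxA (pt_mem_nb.2 rfl)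
    · right
      refine ⟨hx, ?_⟩
      rintro ⟨y, hy⟩
      exact absurd hy (by simp [Pt.pt, Pt.iso])
  · rw [Set.disjoint_left]
    rintro x (⟨hx1, hx2⟩ | ⟨hx1, hx2⟩) (⟨hx3, hx4⟩ | ⟨hx3, hx4⟩)
    · exact Set.disjoint_left.1 hd hx1 hx3
    · exact hx2 hx3
    · exact hx4 hx1
    · exact Set.disjoint_left.1 hAB hx1 hx3

/-- The equivalence of `Ω` with the set of the non-isolated points. -/
noncomputable def mainEquiv (E : ι → Ω → Ω → Prop) : Ω ≃ Pt.main E :=
  Equiv.ofInjective (Pt.pt E) (fun _ _ h => Sum.inl.inj h)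

theorem mainEquiv_symm (y : Pt.main E) : Pt.pt E ((mainEquiv E).symm y) = y := by
  have := congrArg Subtype.val ((mainEquiv E).apply_symm_apply y)
  exact this

/-- The local bases at the non-isolated points. -/
def mainBase (E : ι → Ω → Ω → Prop) (y : Pt.main E) : Set (Set (Pt E)) :=
  range fun s => nb E ((mainEquiv E).symm y) s

/-- The basic functions of the relations. -/
def mainFam (E : ι → Ω → Ω → Prop) : Set (Pt.main E → Set (Pt E)) :=
  range fun i y => nb E ((mainEquiv E).symm y) {i}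

theorem mem_nhds_iff' {y : Pt.main E} {U : Set (Pt E)} :
    U ∈ 𝓝 (y : Pt E) ↔ ∃ s, nb E ((mainEquiv E).symm y) s ⊆ U := by
  rw [mem_nhds_iff]
  constructor
  · rintro ⟨V, hVU, hV, hy⟩
    rw [← mainEquiv_symm y] at hy
    obtain ⟨s, hs⟩ := hV _ hy
    exact ⟨s, hs.trans hVU⟩
  · rintro ⟨s, hs⟩
    refine ⟨_, hs, isOpen_nb _ _, ?_⟩
    have h : Pt.pt E ((mainEquiv E).symm y) ∈ nb E ((mainEquiv E).symm y) s := pt_mem_nb.2 rfl
    rwa [mainEquiv_symm] at h

theorem setting_main (hE : ∀ i, Equivalence (E i)) (hC : Capt E) (hΩ : #Ω = ℵ₁) :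
    Setting (Pt E) (Pt.main E) (mainBase E) (mainFam E) where
  normal := normalSpace hE hC
  closed := isClosed_main
  discrete := by
    rw [discreteTopology_subtype_iff']
    intro y hy
    refine ⟨nb E ((mainEquiv E).symm ⟨y, hy⟩) ∅, isOpen_nb _ _, ?_⟩
    ext x
    constructor
    · rintro ⟨hx, ⟨z, rfl⟩⟩
      rw [pt_mem_nb] at hx
      rw [hx, mainEquiv_symm]
      rfl
    · rintro rfl
      refine ⟨?_, hy⟩
      have h : Pt.pt E ((mainEquiv E).symm ⟨x, hy⟩) ∈ nb E ((mainEquiv E).symm ⟨x, hy⟩) ∅ :=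
        pt_mem_nb.2 rfl
      rwa [mainEquiv_symm] at h
  card := by
    rw [← hΩ]
    exact (mk_congr (mainEquiv E)).symm
  nhds := by
    rintro y V ⟨s, rfl⟩
    exact mem_nhds_iff'.2 ⟨s, Subset.rfl⟩
  base := by
    intro y U hU
    obtain ⟨s, hs⟩ := mem_nhds_iff'.1 hU
    exact ⟨_, ⟨s, rfl⟩, hs⟩
  only := by
    rintro y V ⟨s, rfl⟩ x ⟨hx, ⟨z, rfl⟩⟩
    rw [pt_mem_nb] at hx
    rw [hx, mainEquiv_symm]
    rfl
  basic := by
    rintro f ⟨i, rfl⟩ y
    exact ⟨{i}, rfl⟩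
  witness := by
    intro Z
    obtain ⟨i, hi⟩ := hC {a | mainEquiv E a ∈ Z}
    refine ⟨_, ⟨i, rfl⟩, ?_⟩
    rw [Set.disjoint_left]
    intro x hx hx'
    simp only [mem_iUnion] at hx hx'
    obtain ⟨y, hy, hxy⟩ := hx
    obtain ⟨z, hz, hxz⟩ := hx'
    refine Set.disjoint_left.1 (disjoint_nb (hE i) ?_) hxy hxz
    intro hyz
    have h1 := hi _ _ hyz
    simp only [mem_ofPred_eq, Equiv.apply_symm_apply] at h1
    exact hz (h1.1 hy)

theorem sep_of_separatedOn {S : Set (Pt.main E)} (h : SeparatedOn S) :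
    Sep E {a | mainEquiv E a ∈ S} := by
  obtain ⟨U, hU, hd⟩ := h
  have h1 : ∀ a : Ω, ∃ s, mainEquiv E a ∈ S → nb E a s ⊆ U (mainEquiv E a) := by
    intro a
    by_cases ha : mainEquiv E a ∈ S
    · have h2 := mem_nhds_iff'.1 ((hU _ ha).1.mem_nhds (hU _ ha).2)
      rw [Equiv.symm_apply_apply] at h2
      obtain ⟨s, hs⟩ := h2
      exact ⟨s, fun _ => hs⟩
    · exact ⟨∅, fun h => absurd h ha⟩
  choose s hs using h1
  refine ⟨s, fun y hy z hz hyz => ?_⟩
  by_contra hcon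
  push Not at hcon
  let p : Iso E := ⟨((y, z), (s y, s z)), hyz, fun i hi hi' => hcon i hi hi'⟩
  have h2 : Pt.iso E p ∈ U (mainEquiv E y) := hs y hy (iso_mem_nb.2 (Or.inl ⟨rfl, Finset.Subset.rfl⟩))
  have h3 : Pt.iso E p ∈ U (mainEquiv E z) := hs z hz (iso_mem_nb.2 (Or.inr ⟨rfl, Finset.Subset.rfl⟩))
  exact Set.disjoint_left.1 (hd _ hy _ hz (fun h => hyz ((mainEquiv E).injective h))) h2 h3

end Space

end Pool.Agent.Lib.MP_8f36f1_lc
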