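import Pool.Agent.Lib.MP_8f36f1_lc.Top
import Pool.Agent.Lib.MP_8f36f1_lc.Space

/-!
# The combinatorial characterizations

Auxiliary file for the problem MP_8f36f1_lc.
-/

open Set Cardinal Topology

universe u

namespace Pool.Agent.Lib.MP_8f36f1_lc

theorem hasIdeal_iff {κ : Cardinal.{u}} : HasIdeal κ ↔
    ∃ (ι : Type u) (E : ι → W1.{u} → W1.{u} → Prop) (I : Set W1.{u} → Prop), #ι ≤ κ ∧
      (∀ i, Equivalence (E i)) ∧ Capt E ∧ FullIdeal E I ∧ ¬ I Set.univ := by
  constructor
  · rintro ⟨ι, E, I, h1, h2, h3, h4, h5, h6, h7, h8⟩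
    refine ⟨ι, E, fun S => S ∈ I, h1, h2, h3, ⟨h4, ?_, h6, h7⟩, h8⟩
    intro S hS
    rcases hS.eq_empty_or_singleton with rfl | ⟨y, rfl⟩
    · have hne : Nonempty W1.{u} := by
        by_contra hcon
        rw [not_nonempty_iff] at hcon
        exact w1_uncountable (Set.countable_univ (α := W1.{u}))
      exact h4 _ _ (h5 hne.some) (Set.empty_subset _)
    · exact h5 y
  · rintro ⟨ι, E, I, h1, h2, h3, h4, h5⟩
    exact ⟨ι, E, {S | I S}, h1, h2, h3, h4.mono, fun y => h4.subs _ subsingleton_singleton,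
      h4.iUnion, h4.full, h5⟩

theorem HasGoodExample.hasExample {κ : Cardinal.{u}} (h : HasGoodExample κ) : HasExample κ := by
  obtain ⟨X, tX, Y, B, F, h1, _, _, h4, h5⟩ := h
  exact ⟨X, tX, Y, B, F, h1, h4, h5⟩

theorem HasExample.hasIdeal {κ : Cardinal.{u}} (h : HasExample κ) : HasIdeal κ := by
  obtain ⟨X, tX, Y, B, F, h1, h4, h5⟩ := h
  rw [hasIdeal_iff]
  obtain ⟨e⟩ := exists_equiv_w1 h1.card
  refine ⟨F, _, _, h4, equiv_transport e (fun f : F => comp_equiv f.1), h1.capt.transport e,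
    h1.fullIdeal.transport e, ?_⟩
  rw [preimage_univ, ← separated_iff]
  exact h5

theorem HasIdeal.hasFamily {κ : Cardinal.{u}} (h : HasIdeal κ) : HasFamily κ := by
  rw [hasIdeal_iff] at h
  obtain ⟨ι, E, I, h1, h2, h3, h4, h5⟩ := h
  refine ⟨ι, E, h1, h2, h3, fun s => ?_⟩
  obtain ⟨y, _, z, _, hyz, hall⟩ := h4.exists_pair h2 Set.univ s h5
  exact ⟨y, z, hyz, hall⟩

theorem HasFamily.hasGoodExample {κ : Cardinal.{u}} (h : HasFamily κ) : HasGoodExample κ := by
  obtain ⟨ι, E, h1, h2, h3, h4⟩ := h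
  have hC : Capt E := h3
  have hns : ¬ Sep E (Set.univ : Set W1.{u}) := by
    rintro ⟨s, hs⟩
    obtain ⟨y, z, hyz, hall⟩ := h4 s
    obtain ⟨i, hi, hi', hiE⟩ := hs y (mem_univ y) z (mem_univ z) hyz
    exact hiE (hall i hi hi')
  have := t1Space hC hns
  have := normalSpace h2 hC
  refine ⟨Pt E, inferInstance, Pt.main E, mainBase E, mainFam E, setting_main h2 hC w1_card,
    inferInstance, ?_, mk_range_le.trans h1, ?_⟩
  · rintro y V ⟨s, rfl⟩
    exact isOpen_nb _ _
  · intro hsep
    rw [separated_iff] at hsep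
    have := sep_of_separatedOn hsep
    simp only [mem_univ, ofPred_true] at this
    exact hns this

theorem tfae_example (κ : Cardinal.{u}) :
    List.TFAE [HasExample κ, HasGoodExample κ, HasFamily κ, HasIdeal κ] := by
  tfae_have 2 → 1 := HasGoodExample.hasExample
  tfae_have 1 → 4 := HasExample.hasIdeal
  tfae_have 4 → 3 := HasIdeal.hasFamily
  tfae_have 3 → 2 := HasFamily.hasGoodExample
  tfae_finish

/-! ### Not even weakly separated -/

theorem HasGoodWeakExample.hasWeakExample {κ : Cardinal.{u}} (h : HasGoodWeakExample κ) :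
    HasWeakExample κ := by
  obtain ⟨X, tX, Y, B, F, h1, _, _, h4, h5⟩ := h
  exact ⟨X, tX, Y, B, F, h1, h4, h5⟩

theorem HasWeakExample.hasMaps {κ : Cardinal.{u}} (h : HasWeakExample κ) : HasMaps κ := by
  obtain ⟨X, tX, Y, B, F, h1, h4, h5⟩ := h
  obtain ⟨e⟩ := exists_equiv_w1 h1.card
  -- every basic function has only countably many components
  have hg : ∀ f : F, ∃ g : Y → ℕ, ∀ y z, g y = g z → comp f.1 y z := by
    intro f
    let st : Setoid Y := ⟨comp f.1, comp_equiv f.1⟩
    let rep : Y → Y := fun y => (Quotient.mk st y).out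
    have hrep : ∀ y, comp f.1 (rep y) y := fun y => Quotient.mk_out (s := st) y
    have hrep' : ∀ y z, comp f.1 y z → rep y = rep z := by
      intro y z hyz
      have : Quotient.mk st y = Quotient.mk st z := Quotient.sound hyz
      simp only [rep, this]
    have hsep : SeparatedOn (range rep) := by
      refine ⟨fun y => interior (f.1 y), fun y _ => ⟨isOpen_interior,
        mem_interior_iff_mem_nhds.2 (h1.nhds y _ (h1.basic _ f.2 y))⟩, ?_⟩
      rintro _ ⟨y, rfl⟩ _ ⟨z, rfl⟩ hyz
      refine (disjoint_of_not_comp ?_).mono interior_subset interior_subset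
      intro hc
      apply hyz
      have h2 : comp f.1 y z :=
        (comp_equiv f.1).trans ((comp_equiv f.1).symm (hrep y))
          ((comp_equiv f.1).trans hc (hrep z))
      exact hrep' y z h2
    obtain ⟨j, hj⟩ := (h5 _ hsep).exists_injective_nat
    refine ⟨fun y => j ⟨rep y, mem_range_self y⟩, fun y z hyz => ?_⟩
    have h2 : rep y = rep z := congrArg Subtype.val (hj hyz)
    have h3 : comp f.1 (rep y) y := hrep y
    have h4 : comp f.1 (rep z) z := hrep z
    rw [h2] at h3
    exact (comp_equiv f.1).trans ((comp_equiv f.1).symm h3) h4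
  choose g hg using hg
  refine ⟨F, fun f a => g f (e.symm a), h4, fun Z => ?_⟩
  obtain ⟨f, hf⟩ := h1.capt.transport e Z
  refine ⟨f, g f ∘ e.symm '' Z, ?_⟩
  ext a
  constructor
  · intro ha
    exact ⟨a, ha, rfl⟩
  · rintro ⟨b, hb, hba⟩
    exact (hf b a (hg f _ _ hba)).1 hb

theorem HasMaps.hasGoodWeakExample {κ : Cardinal.{u}} (h : HasMaps κ) :
    HasGoodWeakExample κ := by
  obtain ⟨ι, g, h1, h2⟩ := h
  let E : ι → W1.{u} → W1.{u} → Prop := fun i y z => g i y = g i z
  have hE : ∀ i, Equivalence (E i) := fun i =>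
    ⟨fun _ => rfl, fun h => Eq.symm h, fun h h' => Eq.trans h h'⟩
  have hC : Capt E := by
    intro Z
    obtain ⟨i, D, rfl⟩ := h2 Z
    refine ⟨i, fun y z hyz => ?_⟩
    show g i y ∈ D ↔ g i z ∈ D
    rw [show g i y = g i z from hyz]
  have hFI : FullIdeal E (fun S : Set W1.{u} => S.Countable) :=
    { mono := fun S T hT hST => Set.Countable.mono hST hT
      subs := fun S hS => hS.countable
      iUnion := fun S hS => countable_iUnion hS
      full := by
        intro i S hS
        have h3 : S ⊆ ⋃ n : ℕ, (S ∩ {z | g i z = n}) := by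
          intro z hz
          exact mem_iUnion.2 ⟨g i z, hz, rfl⟩
        refine Set.Countable.mono h3 (countable_iUnion fun n => ?_)
        rcases (S ∩ {z | g i z = n}).eq_empty_or_nonempty with hem | ⟨y, _, hy⟩
        · rw [hem]
          exact countable_empty
        · refine Set.Countable.mono ?_ (hS y)
          rintro z ⟨hz, hz'⟩
          refine ⟨hz, ?_⟩
          show g i y = g i z
          rw [show g i y = n from hy, show g i z = n from hz'] }
  have hns' : ∀ S : Set W1.{u}, Sep E S → S.Countable := by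
    intro S hS
    by_contra hcon
    obtain ⟨s, hs⟩ := hS
    obtain ⟨y, hy, z, hz, hyz, hall⟩ := hFI.exists_pair hE S s hcon
    obtain ⟨i, hi, hi', hiE⟩ := hs y hy z hz hyz
    exact hiE (hall i hi hi')
  have hns : ¬ Sep E (Set.univ : Set W1.{u}) := fun h => w1_uncountable (hns' _ h)
  have := t1Space hC hns
  have := normalSpace hE hC
  refine ⟨Pt E, inferInstance, Pt.main E, mainBase E, mainFam E, setting_main hE hC w1_card,
    inferInstance, ?_, mk_range_le.trans h1, ?_⟩
  · rintro y V ⟨s, rfl⟩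
    exact isOpen_nb _ _
  · intro S hS
    have h3 := hns' _ (sep_of_separatedOn hS)
    have h4 : S = mainEquiv E '' {a | mainEquiv E a ∈ S} := by
      ext y
      constructor
      · intro hy
        exact ⟨(mainEquiv E).symm y, by simpa using hy, by simp⟩
      · rintro ⟨a, ha, rfl⟩
        exact ha
    rw [h4]
    exact h3.image _

theorem tfae_weak (κ : Cardinal.{u}) :
    List.TFAE [HasWeakExample κ, HasGoodWeakExample κ, HasMaps κ] := by
  tfae_have 2 → 1 := HasGoodWeakExample.hasWeakExample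
  tfae_have 1 → 3 := HasWeakExample.hasMaps
  tfae_have 3 → 2 := HasMaps.hasGoodWeakExample
  tfae_finish

theorem HasMaps.almostDisjoint {κ : Cardinal.{u}} (h : HasMaps κ) (A : Set (Set W1.{u}))
    (hA : ∀ C ∈ A, ¬ C.Countable) (hd : ∀ C ∈ A, ∀ D ∈ A, C ≠ D → (C ∩ D).Countable) :
    #A ≤ max κ ℵ₀ := by
  obtain ⟨ι, g, h1, h2⟩ := h
  have h3 : ∀ C : A, ∃ p : ι × ℕ, g p.1 ⁻¹' {p.2} ⊆ C.1 ∧ ¬ (g p.1 ⁻¹' {p.2}).Countable := by
    intro C
    obtain ⟨i, D, hD⟩ := h2 C.1
    by_contra hcon
    push Not at hcon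
    apply hA C.1 C.2
    have h4 : C.1 = ⋃ n ∈ D, g i ⁻¹' {n} := by
      rw [hD]
      ext x
      simp
    rw [h4]
    refine (Set.to_countable D).biUnion fun n hn => ?_
    refine hcon (i, n) ?_
    rw [hD]
    intro x hx
    have : g i x = n := hx
    show g i x ∈ D
    rw [this]
    exact hn
  choose p hp1 hp2 using h3
  have hinj : Function.Injective p := by
    intro C D hCD
    by_contra hne
    have h4 : C.1 ≠ D.1 := fun h => hne (Subtype.ext h)
    refine hp2 C (Set.Countable.mono ?_ (hd C.1 C.2 D.1 D.2 h4))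
    refine subset_inter (hp1 C) ?_
    rw [hCD]
    exact hp1 D
  have h5 := mk_le_of_injective hinj
  rw [mk_prod, lift_uzero, mk_nat, lift_aleph0] at h5
  refine h5.trans ?_
  refine mul_le_of_le (le_max_right _ _) ?_ (le_max_right _ _)
  exact h1.trans (le_max_left _ _)

end Pool.Agent.Lib.MP_8f36f1_lc
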