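import Mathlib

/-!
# Witnessing families of basic functions

The setting of the problem MP_8f36f1_lc.
-/

open Set Cardinal Topology

universe u

namespace Pool.Agent.Lib.MP_8f36f1_lc

/-- The setting of the problem. `X` is a normal space, `Y` is a closed discrete subset of `X` of
size `ℵ₁`, `B y` is a local base at `y` (its members are neighbourhoods of `y`, open or not)
whose members contain no point of `Y` other than `y`, and `F` is a family of basic functions
which witnesses the normality of `Y`. -/
structure Setting (X : Type u) [TopologicalSpace X] (Y : Set X) (B : Y → Set (Set X))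
    (F : Set (Y → Set X)) : Prop where
  normal : NormalSpace X
  closed : IsClosed Y
  discrete : DiscreteTopology Y
  card : #Y = ℵ₁
  nhds : ∀ (y : Y), ∀ V ∈ B y, V ∈ 𝓝 (y : X)
  base : ∀ (y : Y), ∀ U ∈ 𝓝 (y : X), ∃ V ∈ B y, V ⊆ U
  only : ∀ (y : Y), ∀ V ∈ B y, V ∩ Y ⊆ {(y : X)}
  basic : ∀ f ∈ F, ∀ y : Y, f y ∈ B y
  witness : ∀ Z : Set Y, ∃ f ∈ F, Disjoint (⋃ z ∈ Z, f z) (⋃ y ∈ Zᶜ, f y)

/-- The points of the subset `S` of `Y` have pairwise disjoint open neighbourhoods. -/
def SeparatedOn {X : Type u} [TopologicalSpace X] {Y : Set X} (S : Set Y) : Prop :=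
  ∃ U : Y → Set X, (∀ y ∈ S, IsOpen (U y) ∧ (y : X) ∈ U y) ∧
    ∀ y ∈ S, ∀ z ∈ S, y ≠ z → Disjoint (U y) (U z)

/-- The set `Y` is separated: its points have pairwise disjoint open neighbourhoods. -/
def Separated {X : Type u} [TopologicalSpace X] (Y : Set X) : Prop :=
  ∃ U : Y → Set X, (∀ y, IsOpen (U y) ∧ (y : X) ∈ U y) ∧ ∀ y z, y ≠ z → Disjoint (U y) (U z)

/-- The least uncountable ordinal, as a well-ordered type in the universe `u`. -/
abbrev W1 : Type u := (ord (ℵ₁ : Cardinal.{u})).ToType

/-- The cofinality of the family of subsets of size at most `ℵ₁` of a set of size `μ`, ordered by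
inclusion: the least size of a family `C` of subsets of size at most `ℵ₁` such that every subset
of size at most `ℵ₁` is contained in a member of `C`. -/
noncomputable def cofSmall (μ : Cardinal.{u}) : Cardinal.{u} :=
  sInf {κ | ∃ C : Set (Set μ.out), #C = κ ∧ (∀ A ∈ C, #A ≤ ℵ₁) ∧
    ∀ D : Set μ.out, #D ≤ ℵ₁ → ∃ A ∈ C, D ⊆ A}

/-- The dominating number of the functions from `ω₁` to `ω₁`: the least size of a family `D` such
that for every function `f` there is `g ∈ D` with `f a < g a` for all but countably many `a`. -/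
noncomputable def domOne : Cardinal.{u} :=
  sInf {κ | ∃ D : Set (W1.{u} → W1.{u}), #D = κ ∧
    ∀ f : W1.{u} → W1.{u}, ∃ g ∈ D, {a | ¬ f a < g a}.Countable}

/-- The reaping number of `ω₁`: the least size of a family `R` of uncountable subsets of `ω₁` such
that for every set `Z ⊆ ω₁` some member of `R` is almost contained in `Z` or almost disjoint from
`Z` (up to a countable set). -/
noncomputable def reapOne : Cardinal.{u} :=
  sInf {κ | ∃ R : Set (Set W1.{u}), #R = κ ∧ (∀ C ∈ R, ¬ C.Countable) ∧
    ∀ Z : Set W1.{u}, ∃ C ∈ R, (C \ Z).Countable ∨ (C ∩ Z).Countable}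

/-- The covering number of the meagre ideal: the least number of meagre sets which cover the
Cantor space. -/
noncomputable def covMeagre : Cardinal.{0} :=
  sInf {κ | ∃ M : Set (Set (ℕ → Bool)), #M = κ ∧ (∀ A ∈ M, IsMeagre A) ∧ ⋃₀ M = Set.univ}

/-- There is an example with a witnessing family of size at most `κ` and `Y` not separated. -/
def HasExample (κ : Cardinal.{u}) : Prop :=
  ∃ (X : Type u) (_ : TopologicalSpace X) (Y : Set X) (B : Y → Set (Set X))
    (F : Set (Y → Set X)), Setting X Y B F ∧ #F ≤ κ ∧ ¬ Separated Y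

/-- The same, with `X` normal and `T₁` (hence Hausdorff) and with local bases of open sets. -/
def HasGoodExample (κ : Cardinal.{u}) : Prop :=
  ∃ (X : Type u) (_ : TopologicalSpace X) (Y : Set X) (B : Y → Set (Set X))
    (F : Set (Y → Set X)), Setting X Y B F ∧ T4Space X ∧ (∀ y, ∀ V ∈ B y, IsOpen V) ∧
      #F ≤ κ ∧ ¬ Separated Y

/-- There are at most `κ` equivalence relations on `ω₁` such that every subset of `ω₁` is a union
of classes of one of them, and whenever finitely many of them are chosen at each point there are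
two different points which are equivalent for all the relations chosen at both. -/
def HasFamily (κ : Cardinal.{u}) : Prop :=
  ∃ (ι : Type u) (E : ι → W1.{u} → W1.{u} → Prop), #ι ≤ κ ∧ (∀ i, Equivalence (E i)) ∧
    (∀ Z : Set W1.{u}, ∃ i, ∀ y z, E i y z → (y ∈ Z ↔ z ∈ Z)) ∧
    ∀ s : W1.{u} → Finset ι, ∃ y z, y ≠ z ∧ ∀ i ∈ s y, i ∈ s z → E i y z

/-- There are at most `κ` equivalence relations on `ω₁` such that every subset of `ω₁` is a union
of classes of one of them, and a proper sigma-ideal `I` on `ω₁` which contains the singletons and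
every set whose intersections with the classes of one of the relations are all in `I`. -/
def HasIdeal (κ : Cardinal.{u}) : Prop :=
  ∃ (ι : Type u) (E : ι → W1.{u} → W1.{u} → Prop) (I : Set (Set W1.{u})), #ι ≤ κ ∧
    (∀ i, Equivalence (E i)) ∧
    (∀ Z : Set W1.{u}, ∃ i, ∀ y z, E i y z → (y ∈ Z ↔ z ∈ Z)) ∧
    (∀ S T : Set W1.{u}, T ∈ I → S ⊆ T → S ∈ I) ∧ (∀ y, {y} ∈ I) ∧
    (∀ S : ℕ → Set W1.{u}, (∀ n, S n ∈ I) → (⋃ n, S n) ∈ I) ∧
    (∀ (i : ι) (S : Set W1.{u}), (∀ y, S ∩ {z | E i y z} ∈ I) → S ∈ I) ∧ Set.univ ∉ I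

/-- The least size of a witnessing family for an example with `Y` not separated. -/
noncomputable def leastSize : Cardinal.{u} := sInf {κ | HasExample κ}

/-- There is an example with a witnessing family of size at most `κ` and `Y` not even weakly
separated: every separated subset of `Y` is countable. -/
def HasWeakExample (κ : Cardinal.{u}) : Prop :=
  ∃ (X : Type u) (_ : TopologicalSpace X) (Y : Set X) (B : Y → Set (Set X))
    (F : Set (Y → Set X)), Setting X Y B F ∧ #F ≤ κ ∧ ∀ S : Set Y, SeparatedOn S → S.Countable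

/-- The same, with `X` normal and `T₁` (hence Hausdorff) and with local bases of open sets. -/
def HasGoodWeakExample (κ : Cardinal.{u}) : Prop :=
  ∃ (X : Type u) (_ : TopologicalSpace X) (Y : Set X) (B : Y → Set (Set X))
    (F : Set (Y → Set X)), Setting X Y B F ∧ T4Space X ∧ (∀ y, ∀ V ∈ B y, IsOpen V) ∧
      #F ≤ κ ∧ ∀ S : Set Y, SeparatedOn S → S.Countable

/-- There are at most `κ` maps from `ω₁` to `ω` such that every subset of `ω₁` is a preimage of a
subset of `ω` under one of them. -/
def HasMaps (κ : Cardinal.{u}) : Prop :=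
  ∃ (ι : Type u) (g : ι → W1.{u} → ℕ), #ι ≤ κ ∧
    ∀ Z : Set W1.{u}, ∃ (i : ι) (D : Set ℕ), Z = g i ⁻¹' D

end Pool.Agent.Lib.MP_8f36f1_lc
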