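import Pool.Agent.Lib.MP_8f36f1_lc.Basic

/-!
# Domination and counting on a well-order of type omega one

Auxiliary file for the problem MP_8f36f1_lc.
-/

open Set

universe u v

namespace Pool.Agent.Lib.MP_8f36f1_lc

section Order

variable {W : Type u} [LinearOrder W]

theorem iic_countable (hI : ∀ a : W, (Iio a).Countable) (a : W) : (Iic a).Countable := by
  have : Iic a = insert a (Iio a) := by
    ext x
    simp only [mem_Iic, mem_insert_iff, mem_Iio]
    constructor
    · intro h
      rcases h.lt_or_eq with h | h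
      · exact Or.inr h
      · exact Or.inl h
    · rintro (h | h)
      · exact h.le
      · exact h.le
  rw [this]
  exact (hI a).insert a

theorem exists_bound (hI : ∀ a : W, (Iio a).Countable) (hU : ¬ (univ : Set W).Countable)
    {S : Set W} (hS : S.Countable) : ∃ a, ∀ b ∈ S, b < a := by
  by_contra hcon
  push Not at hcon
  apply hU
  have : (⋃ b ∈ S, Iic b).Countable := hS.biUnion fun b _ => iic_countable hI b
  refine this.mono ?_
  intro a _
  obtain ⟨b, hb, hab⟩ := hcon a
  exact mem_biUnion hb hab

theorem exists_gt_mem (hI : ∀ a : W, (Iio a).Countable) {S : Set W} (hS : ¬ S.Countable) (a : W) :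
    ∃ b ∈ S, a < b := by
  by_contra hcon
  push Not at hcon
  exact hS ((iic_countable hI a).mono hcon)

variable [WellFoundedLT W]

/-- Closure points of a function are unbounded. -/
theorem exists_closure_point (hI : ∀ a : W, (Iio a).Countable) (hU : ¬ (univ : Set W).Countable)
    (φ : W → W) (a : W) : ∃ δ, a < δ ∧ ∀ b < δ, φ b < δ := by
  have hstep : ∀ a : W, ∃ a', a < a' ∧ ∀ b ≤ a, φ b < a' := by
    intro a
    obtain ⟨x, hx⟩ := exists_bound hI hU (S := insert a (φ '' (Iic a)))
      (((iic_countable hI a).image φ).insert a)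
    exact ⟨x, hx a (mem_insert _ _), fun b hb => hx _ (mem_insert_of_mem _ (mem_image_of_mem φ hb))⟩
  choose nx hnx1 hnx2 using hstep
  let s : ℕ → W := fun n => nx^[n] a
  obtain ⟨x, hx⟩ := exists_bound hI hU (countable_range s)
  have hne : {x | ∀ n, s n < x}.Nonempty := ⟨x, fun n => hx _ (mem_range_self n)⟩
  let δ := (wellFounded_lt (α := W)).min {x | ∀ n, s n < x} hne
  have hδ : ∀ n, s n < δ := (wellFounded_lt (α := W)).min_mem {x | ∀ n, s n < x} hne
  have hδ' : ∀ b < δ, ∃ n, b ≤ s n := by
    intro b hb
    by_contra hcon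
    push Not at hcon
    exact (wellFounded_lt (α := W)).not_lt_min {x | ∀ n, s n < x} (x := b) hcon hb
  refine ⟨δ, hδ 0, ?_⟩
  intro b hb
  obtain ⟨n, hn⟩ := hδ' b hb
  have h1 : φ b < s (n + 1) := by
    simp only [s, Function.iterate_succ_apply']
    exact hnx2 _ _ hn
  exact h1.trans (hδ (n + 1))

end Order

section Dom

variable {W : Type u} [LinearOrder W] [WellFoundedLT W] {ι : Type v}

/-- The function `φ` looks for an element of every uncountable class of `R`. -/
def NextFun (R : W → W → Prop) (φ : W → W) : Prop :=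
  ∀ a, ∀ b < a, ¬ {c | R b c}.Countable → ∃ c, a ≤ c ∧ c < φ a ∧ R b c

omit [WellFoundedLT W] in
theorem exists_nextFun (hI : ∀ a : W, (Iio a).Countable) (hU : ¬ (univ : Set W).Countable)
    (R : W → W → Prop) : ∃ φ, NextFun R φ := by
  have h : ∀ a : W, ∃ x : W, ∀ b < a, ¬ {c | R b c}.Countable → ∃ c, a ≤ c ∧ c < x ∧ R b c := by
    intro a
    have h1 : ∀ b : W, ∃ c : W, ¬ {c | R b c}.Countable → a ≤ c ∧ R b c := by
      intro b
      by_cases hb : {c | R b c}.Countable
      · exact ⟨b, fun h => absurd hb h⟩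
      · obtain ⟨c, hc, hac⟩ := exists_gt_mem hI hb a
        exact ⟨c, fun _ => ⟨hac.le, hc⟩⟩
    choose c hc using h1
    obtain ⟨x, hx⟩ := exists_bound hI hU ((hI a).image c)
    refine ⟨x, fun b hb hbc => ⟨c b, (hc b hbc).1, hx _ (mem_image_of_mem c hb), (hc b hbc).2⟩⟩
  choose φ hφ using h
  exact ⟨φ, hφ⟩

/-- The key lemma: the functions looking for elements of the uncountable classes dominate every
function, if the whole set is not separated. -/
theorem exists_dominates (hI : ∀ a : W, (Iio a).Countable) (hU : ¬ (univ : Set W).Countable)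
    (g : W → ℕ → Prop) (hg : Function.Injective g)
    {E : ι → W → W → Prop} {I : Set W → Prop} (hC : Capt E)
    (hFI : FullIdeal E I) (hns : ¬ I univ) (ψ : ι → W → W) (hψ : ∀ i, NextFun (E i) (ψ i)) (φ : W → W) :
    ∃ i, {a | ψ i a ≤ φ a}.Countable := by
  by_contra hcon
  push Not at hcon
  apply hns
  -- the blocks between consecutive closure points
  let Cl : Set W := {δ | ∀ b < δ, φ b < δ}
  let st : Setoid W := ⟨fun a b => ∀ δ ∈ Cl, (δ ≤ a ↔ δ ≤ b),
    ⟨fun a δ _ => Iff.rfl, fun h δ hδ => (h δ hδ).symm,
      fun h h' δ hδ => (h δ hδ).trans (h' δ hδ)⟩⟩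
  have hst : ∀ a b, st a b ↔ ∀ δ ∈ Cl, (δ ≤ a ↔ δ ≤ b) := fun a b => Iff.rfl
  have hblock : ∀ a, {b | st a b}.Countable := by
    intro a
    obtain ⟨δ, haδ, hδ⟩ := exists_closure_point hI hU φ a
    refine (hI δ).mono ?_
    intro b hb
    have := ((hst a b).1 hb) δ hδ
    exact not_le.1 fun h => absurd (this.2 h) (not_le.2 haδ)
  have hnear : ∀ a c, a ≤ c → c < φ a → st a c := by
    intro a c hac hcφ δ hδ
    constructor
    · intro h
      exact h.trans hac
    · intro h
      by_contra hlt
      rw [not_le] at hlt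
      exact absurd (hδ a hlt) (not_lt.2 (h.trans hcφ.le))
  -- dichotomy for unions of blocks
  have hdich : ∀ Z : Set W, (∀ a b, st a b → (a ∈ Z ↔ b ∈ Z)) → I Z ∨ I Zᶜ := by
    intro Z hZ
    obtain ⟨i, hi⟩ := hC Z
    by_cases hall : ∀ b, ¬ {c | E i b c}.Countable → b ∈ Z
    · right
      refine hFI.full i _ ?_
      intro y
      by_cases hy : {z | E i y z}.Countable
      · exact hFI.countable (hy.mono inter_subset_right)
      · have hyZ : y ∈ Z := hall y hy
        refine hFI.subs _ ?_
        rintro z ⟨hz, hz'⟩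
        exact absurd ((hi y z hz').1 hyZ) hz
    · push Not at hall
      obtain ⟨b', hb'C, hb'Z⟩ := hall
      left
      refine hFI.full i _ ?_
      intro y
      by_cases hy : {z | E i y z}.Countable
      · exact hFI.countable (hy.mono inter_subset_right)
      · have hyZ : y ∉ Z := by
          intro hyZ
          obtain ⟨α, hα, hmax⟩ := exists_gt_mem hI (hcon i) (max y b')
          have hyα : y < α := lt_of_le_of_lt (le_max_left _ _) hmax
          have hbα : b' < α := lt_of_le_of_lt (le_max_right _ _) hmax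
          obtain ⟨c, hc1, hc2, hc3⟩ := hψ i α y hyα hy
          obtain ⟨c', hc1', hc2', hc3'⟩ := hψ i α b' hbα hb'C
          have hcn := hnear α c hc1 (lt_of_lt_of_le hc2 hα)
          have hcn' := hnear α c' hc1' (lt_of_lt_of_le hc2' hα)
          have h1 : c ∈ Z := (hi y c hc3).1 hyZ
          have h2 : α ∈ Z := (hZ α c hcn).2 h1
          have h3 : c' ∈ Z := (hZ α c' hcn').1 h2
          exact hb'Z ((hi b' c' hc3').2 h3)
        refine hFI.subs _ ?_
        rintro z ⟨hz, hz'⟩
        exact absurd ((hi y z hz').2 hz) hyZ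
  -- the blocks are separated by countably many sets
  let rep : W → W := fun a => (Quotient.mk st a).out
  have hrep : ∀ a, st (rep a) a := fun a => Quotient.mk_out (s := st) a
  have hrep' : ∀ a b, st a b → rep a = rep b := by
    intro a b hab
    have : Quotient.mk st a = Quotient.mk st b := Quotient.sound hab
    simp only [rep, this]
  refine hFI.splits (fun n => {a | g (rep a) n}) ?_ univ ?_
  · intro b
    rcases {z | ∀ n, z ∈ {a | g (rep a) n} ↔ b n}.eq_empty_or_nonempty with hem | ⟨z0, hz0⟩
    · rw [hem]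
      exact hFI.subs _ subsingleton_empty
    · refine hFI.countable ((hblock z0).mono ?_)
      intro z hz
      have h1 : g (rep z0) = g (rep z) := by
        funext n
        exact propext ((hz0 n).trans (hz n).symm)
      have h2 : rep z0 = rep z := hg h1
      have h3 : st (rep z0) z0 := hrep z0
      have h4 : st (rep z) z := hrep z
      rw [← h2] at h4
      exact st.trans (st.symm h3) h4
  · intro n
    rw [univ_inter, ← compl_eq_univ_sdiff]
    refine hdich _ ?_
    intro a b hab
    have : rep a = rep b := hrep' a b hab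
    show g (rep a) n ↔ g (rep b) n
    rw [this]

end Dom

end Pool.Agent.Lib.MP_8f36f1_lc
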