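import Pool.Agent.Lib.MP_8f36f1_lc.Char
import Pool.Agent.Lib.MP_8f36f1_lc.Bounds

/-!
# The least size of a witnessing family

Auxiliary file for the problem MP_8f36f1_lc.
-/

open Set Cardinal Topology

universe u

namespace Pool.Agent.Lib.MP_8f36f1_lc

section Ulam

variable {ι : Type u} {E : ι → W1.{u} → W1.{u} → Prop} {I : Set W1.{u} → Prop}

theorem exists_uncountable_fibre (f : W1.{u} → ℕ) : ∃ n, ¬ (f ⁻¹' {n}).Countable := by
  by_contra hcon
  push Not at hcon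
  apply w1_uncountable.{u}
  refine (countable_iUnion hcon).mono ?_
  intro x _
  exact mem_iUnion.2 ⟨f x, rfl⟩

theorem mk_eq_of_not_countable {S : Set W1.{u}} (hS : ¬ S.Countable) : #S = ℵ₁ := by
  apply le_antisymm
  · exact (mk_set_le S).trans w1_card.le
  · rw [aleph_one_le_iff, ← not_le, le_aleph0_iff_set_countable]
    exact hS

/-- The Ulam matrix: `ω₁` many pairwise disjoint sets outside a proper sigma-ideal. -/
theorem exists_disjoint_family (hFI : FullIdeal E I) (hns : ¬ I Set.univ) :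
    ∃ P : W1.{u} → Set W1.{u}, (∀ v w, v ≠ w → Disjoint (P v) (P w)) ∧ ∀ w, ¬ I (P w) := by
  -- injections of the initial segments into the natural numbers
  have hj : ∀ a : W1.{u}, ∃ j : W1.{u} → ℕ, ∀ b < a, ∀ c < a, j b = j c → b = c := by
    intro a
    obtain ⟨j, hj⟩ := countable_iff_exists_injOn.1 (w1_iio a)
    exact ⟨j, fun b hb c hc h => hj hb hc h⟩
  choose j hj using hj
  have hpos : ∀ b : W1.{u}, ∃ n, ¬ I {a | b < a ∧ j a b = n} := by
    intro b
    by_contra hcon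
    push Not at hcon
    apply hns
    refine hFI.mono _ _ (hFI.union (hFI.iUnion _ hcon)
      (hFI.countable (iic_countable w1_iio b))) ?_
    intro a _
    by_cases hab : b < a
    · exact Or.inl (mem_iUnion.2 ⟨j a b, hab, rfl⟩)
    · exact Or.inr (not_lt.1 hab)
  choose N hN using hpos
  obtain ⟨n, hn⟩ := exists_uncountable_fibre N
  obtain ⟨e⟩ : Nonempty (W1.{u} ≃ (N ⁻¹' {n} : Set W1.{u})) := by
    rw [← Cardinal.eq, w1_card, mk_eq_of_not_countable hn]
  refine ⟨fun w => {a | (e w : W1.{u}) < a ∧ j a (e w) = n}, ?_, ?_⟩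
  · intro v w hvw
    rw [Set.disjoint_left]
    rintro a ⟨h1, h2⟩ ⟨h3, h4⟩
    exact hvw (e.injective (Subtype.ext (hj a _ h1 _ h3 (h2.trans h4.symm))))
  · intro w
    have h1 : N (e w) = n := (e w).2
    have h2 := hN (e w)
    rw [h1] at h2
    exact h2

theorem not_countable_of_not (hFI : FullIdeal E I) {S : Set W1.{u}} (hS : ¬ I S) :
    ¬ S.Countable := fun h => hS (hFI.countable h)

/-- If the family is split into `ω₁` many parts, then one of the parts captures all subsets of a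
set outside the ideal. -/
theorem exists_part (hC : Capt E) (hFI : FullIdeal E I) (hns : ¬ I Set.univ) (c : ι → W1.{u}) :
    ∃ (w : W1.{u}) (P : Set W1.{u}), ¬ I P ∧ ∀ Z ⊆ P, ∃ i, c i = w ∧
      ∀ y ∈ P, ∀ z ∈ P, E i y z → (y ∈ Z ↔ z ∈ Z) := by
  obtain ⟨P, hd, hP⟩ := exists_disjoint_family hFI hns
  by_contra hcon
  push Not at hcon
  choose Z hZ1 hZ2 using fun w => hcon w (P w) (hP w)
  obtain ⟨i, hi⟩ := hC (⋃ w, Z w)
  obtain ⟨y, hy, z, hz, hyz, hne⟩ := hZ2 (c i) i rfl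
  have hmem : ∀ a ∈ P (c i), (a ∈ ⋃ w, Z w) ↔ a ∈ Z (c i) := by
    intro a ha
    constructor
    · intro h
      obtain ⟨w, hw⟩ := mem_iUnion.1 h
      by_cases hwc : w = c i
      · rw [← hwc]
        exact hw
      · exact absurd ha (Set.disjoint_left.1 (hd _ _ hwc) (hZ1 w hw))
    · intro h
      exact mem_iUnion.2 ⟨c i, h⟩
  have h1 := hi y z hyz
  rw [hmem y hy, hmem z hz] at h1
  rcases hne with ⟨h2, h3⟩ | ⟨h2, h3⟩
  · exact h3 (h1.1 h2)
  · exact h2 (h1.2 h3)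

theorem hasIdeal_of_part (hE : ∀ i, Equivalence (E i)) (hC : Capt E) (hFI : FullIdeal E I)
    (hns : ¬ I Set.univ) (c : ι → W1.{u}) : ∃ w, HasIdeal #{i | c i = w} := by
  obtain ⟨w, P, hP, hall⟩ := exists_part hC hFI hns c
  refine ⟨w, ?_⟩
  rw [hasIdeal_iff]
  obtain ⟨e⟩ : Nonempty (W1.{u} ≃ P) := by
    rw [← Cardinal.eq, w1_card, mk_eq_of_not_countable (not_countable_of_not hFI hP)]
  have hinj : Function.Injective (fun a => (e a : W1.{u})) :=
    fun a b h => e.injective (Subtype.ext h)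
  refine ⟨{i | c i = w}, fun i a b => E i (e a) (e b), fun S => I ((fun a => (e a : W1.{u})) '' S),
    le_rfl, ?_, ?_, ⟨?_, ?_, ?_, ?_⟩, ?_⟩
  · intro i
    exact ⟨fun _ => (hE i).refl _, fun h => (hE i).symm h, fun h h' => (hE i).trans h h'⟩
  · intro Z
    obtain ⟨i, hi, hiZ⟩ := hall ((fun a => (e a : W1.{u})) '' Z) (by
      rintro _ ⟨a, _, rfl⟩
      exact (e a).2)
    refine ⟨⟨i, hi⟩, fun y z hyz => ?_⟩
    have h1 := hiZ (e y) (e y).2 (e z) (e z).2 hyz
    have h2 : ∀ a, ((e a : W1.{u}) ∈ (fun a => (e a : W1.{u})) '' Z) ↔ a ∈ Z := fun a =>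
      hinj.mem_set_image
    rwa [h2, h2] at h1
  · intro S T hT hST
    exact hFI.mono _ _ hT (image_mono hST)
  · intro S hS
    exact hFI.subs _ (hS.image _)
  · intro S hS
    rw [image_iUnion]
    exact hFI.iUnion _ hS
  · intro i S hS
    refine hFI.full i _ fun y => ?_
    by_cases hy : y ∈ P
    · refine hFI.mono _ _ (hS (e.symm ⟨y, hy⟩)) ?_
      rintro _ ⟨⟨a, ha, rfl⟩, ha'⟩
      refine ⟨a, ⟨ha, ?_⟩, rfl⟩
      simpa using ha'
    · rcases ((fun a => (e a : W1.{u})) '' S ∩ {z | E i y z}).eq_empty_or_nonempty with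
        hem | ⟨_, ⟨a, ha, rfl⟩, ha'⟩
      · rw [hem]
        exact hFI.subs _ subsingleton_empty
      · refine hFI.mono _ _ (hS a) ?_
        rintro _ ⟨⟨b, hb, rfl⟩, hb'⟩
        exact ⟨b, ⟨hb, (hE i).trans ((hE i).symm ha') hb'⟩, rfl⟩
  · intro h
    apply hP
    refine hFI.mono _ _ h ?_
    intro y hy
    exact ⟨e.symm ⟨y, hy⟩, mem_univ _, by simp⟩

end Ulam

theorem hasMaps_power : HasMaps ((2 : Cardinal.{u}) ^ (ℵ₁ : Cardinal.{u})) := by
  classical
  refine ⟨Set W1.{u}, fun Z a => if a ∈ Z then 1 else 0, ?_, fun Z => ⟨Z, {1}, ?_⟩⟩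
  · rw [mk_set, w1_card]
  · ext a
    by_cases ha : a ∈ Z <;> simp [ha]

theorem HasWeakExample.hasExample {κ : Cardinal.{u}} (h : HasWeakExample κ) : HasExample κ := by
  obtain ⟨X, tX, Y, B, F, h1, h4, h5⟩ := h
  refine ⟨X, tX, Y, B, F, h1, h4, fun hsep => ?_⟩
  have h6 := h5 _ (separated_iff.1 hsep)
  have h7 := le_aleph0_iff_set_countable.2 h6
  rw [mk_univ, h1.card] at h7
  exact absurd h7 (not_le.2 aleph0_lt_aleph_one)

theorem hasExample_power : HasExample ((2 : Cardinal.{u}) ^ (ℵ₁ : Cardinal.{u})) :=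
  hasMaps_power.hasGoodWeakExample.hasWeakExample.hasExample

theorem hasExample_leastSize : HasExample leastSize.{u} :=
  csInf_mem (s := {κ | HasExample κ}) ⟨_, hasExample_power⟩

theorem leastSize_le_power : leastSize.{u} ≤ (2 : Cardinal.{u}) ^ (ℵ₁ : Cardinal.{u}) :=
  csInf_le' hasExample_power

theorem HasIdeal.aleph0_le {κ : Cardinal.{u}} (h : HasIdeal κ) : ℵ₀ ≤ κ := by
  obtain ⟨ι, E, h1, h2, h3, h4⟩ := h.hasFamily
  have hns : ¬ Sep E (Set.univ : Set W1.{u}) := by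
    rintro ⟨s, hs⟩
    obtain ⟨y, z, hyz, hall⟩ := h4 s
    obtain ⟨i, hi, hi', hiE⟩ := hs y (mem_univ y) z (mem_univ z) hyz
    exact hiE (hall i hi hi')
  have hinf : Infinite ι := by
    by_contra hcon
    rw [not_infinite_iff_finite] at hcon
    have := Fintype.ofFinite ι
    obtain ⟨i, hi⟩ := Capt.exists_notMem (E := E) h3 hns Finset.univ
    exact hi (Finset.mem_univ i)
  exact (aleph0_le_mk ι).trans h1

theorem lt_cof_leastSize : ℵ₁ < (leastSize.{u}).ord.cof := by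
  by_contra hcon
  rw [not_lt] at hcon
  have hI : HasIdeal leastSize.{u} := hasExample_leastSize.hasIdeal
  have hinf := hI.aleph0_le
  rw [hasIdeal_iff] at hI
  obtain ⟨ι, E, I, h1, h2, h3, h4, h5⟩ := hI
  obtain ⟨e⟩ : Nonempty (ι ↪ (leastSize.{u}).ord.ToType) := by
    rw [← le_def, mk_ord_toType]
    exact h1
  obtain ⟨s, hs, hsc⟩ := Order.exists_cof_eq (α := (leastSize.{u}).ord.ToType)
  rw [Ordinal.cof_toType] at hsc
  obtain ⟨k⟩ : Nonempty (s ↪ W1.{u}) := by
    rw [← le_def, w1_card, hsc]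
    exact hcon
  choose t ht1 ht2 using fun i => hs (e i)
  obtain ⟨w, hw⟩ := hasIdeal_of_part h2 h3 h4 h5 (fun i => k ⟨t i, ht1 i⟩)
  -- the parts are small
  have hsmall : #{i | k ⟨t i, ht1 i⟩ = w} < leastSize.{u} := by
    rcases ({i | k ⟨t i, ht1 i⟩ = w} : Set ι).eq_empty_or_nonempty with hem | ⟨i0, hi0⟩
    · rw [hem, mk_eq_zero]
      exact aleph0_pos.trans_le hinf
    · have h6 : ∀ i ∈ ({i | k ⟨t i, ht1 i⟩ = w} : Set ι), e i ≤ t i0 := by
        intro i hi
        have h7 : k ⟨t i, ht1 i⟩ = k ⟨t i0, ht1 i0⟩ := hi.trans hi0.symm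
        have h8 : t i = t i0 := congrArg Subtype.val (k.injective h7)
        rw [← h8]
        exact ht2 i
      have h7 : #{i | k ⟨t i, ht1 i⟩ = w} ≤ #(Iic (t i0)) := by
        refine mk_le_of_injective (f := fun i => ⟨e i.1, h6 i.1 i.2⟩) ?_
        intro i j hij
        exact Subtype.ext (e.injective (congrArg Subtype.val hij))
      refine h7.trans_lt ?_
      have h8 : Iic (t i0) = insert (t i0) (Iio (t i0)) := by
        ext x
        simp only [mem_Iic, mem_insert_iff, mem_Iio]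
        exact le_iff_eq_or_lt
      rw [h8]
      refine mk_insert_le.trans_lt ?_
      exact add_lt_of_lt hinf (mk_Iio_ord_lt _) (one_lt_aleph0.trans_le hinf)
  have h9 : HasExample #{i | k ⟨t i, ht1 i⟩ = w} := hw.hasFamily.hasGoodExample.hasExample
  exact absurd (csInf_le' h9 : leastSize.{u} ≤ _) (not_le.2 hsmall)

theorem exists_ideal_leastSize : ∃ (ι : Type u) (E : ι → W1.{u} → W1.{u} → Prop)
    (I : Set W1.{u} → Prop), #ι = leastSize.{u} ∧
      (∀ i, Equivalence (E i)) ∧ Capt E ∧ FullIdeal E I ∧ ¬ I Set.univ := by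
  have hI : HasIdeal leastSize.{u} := hasExample_leastSize.hasIdeal
  rw [hasIdeal_iff] at hI
  obtain ⟨ι, E, I, h1, h2, h3, h4, h5⟩ := hI
  refine ⟨ι, E, I, h1.antisymm ?_, h2, h3, h4, h5⟩
  have h6 : HasIdeal #ι := hasIdeal_iff.2 ⟨ι, E, I, le_rfl, h2, h3, h4, h5⟩
  exact csInf_le' h6.hasFamily.hasGoodExample.hasExample

end Pool.Agent.Lib.MP_8f36f1_lc
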