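import Pool.Agent.Lib.MP_8f36f1_lc.Defs
import Pool.Agent.Lib.MP_8f36f1_lc.Basic

/-!
# From a witnessing family to a capturing family of equivalence relations

Auxiliary file for the problem MP_8f36f1_lc.
-/

open Set Cardinal Topology

universe u v

namespace Pool.Agent.Lib.MP_8f36f1_lc

section

variable {X : Type u} [TopologicalSpace X] {Y : Set X} {B : Y → Set (Set X)}
  {F : Set (Y → Set X)}

/-- The components of the intersection graph of a basic function. -/
def comp (f : Y → Set X) : Y → Y → Prop :=
  Relation.EqvGen (fun y z => ¬ Disjoint (f y) (f z))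

omit [TopologicalSpace X] in
theorem comp_equiv (f : Y → Set X) : Equivalence (comp f) :=
  Relation.EqvGen.is_equivalence _

omit [TopologicalSpace X] in
theorem disjoint_of_not_comp {f : Y → Set X} {y z : Y} (h : ¬ comp f y z) :
    Disjoint (f y) (f z) := by
  by_contra hcon
  exact h (Relation.EqvGen.rel _ _ hcon)

omit [TopologicalSpace X] in
theorem comp_invariant {f : Y → Set X} {Z : Set Y}
    (hf : Disjoint (⋃ z ∈ Z, f z) (⋃ y ∈ Zᶜ, f y)) {y z : Y} (h : comp f y z) :
    y ∈ Z ↔ z ∈ Z := by
  have hd : ∀ a ∈ Z, ∀ b ∈ Zᶜ, Disjoint (f a) (f b) := by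
    intro a ha b hb
    refine hf.mono ?_ ?_
    · exact subset_biUnion_of_mem (u := fun z => f z) ha
    · exact subset_biUnion_of_mem (u := fun z => f z) hb
  induction h with
  | rel a b hab =>
    by_cases ha : a ∈ Z <;> by_cases hb : b ∈ Z
    · exact iff_of_true ha hb
    · exact absurd (hd a ha b hb) hab
    · exact absurd (hd b hb a ha).symm hab
    · exact iff_of_false ha hb
  | refl => exact Iff.rfl
  | symm a b _ ih => exact ih.symm
  | trans a b c _ _ ih1 ih2 => exact ih1.trans ih2

theorem Setting.capt (h : Setting X Y B F) : Capt (fun f : F => comp f.1) := by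
  intro Z
  obtain ⟨f, hf, hd⟩ := h.witness Z
  exact ⟨⟨f, hf⟩, fun y z hyz => comp_invariant hd hyz⟩

theorem separated_iff : Separated Y ↔ SeparatedOn (univ : Set Y) := by
  constructor
  · rintro ⟨U, hU, hd⟩
    exact ⟨U, fun y _ => hU y, fun y _ z _ hyz => hd y z hyz⟩
  · rintro ⟨U, hU, hd⟩
    exact ⟨U, fun y => hU y (mem_univ y), fun y z hyz => hd y (mem_univ y) z (mem_univ z) hyz⟩

theorem Setting.iUnion_disjoint (h : Setting X Y B F) (S : ℕ → Set Y)
    (hd : ∀ m n, m ≠ n → Disjoint (S m) (S n)) (hS : ∀ n, SeparatedOn (S n)) :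
    SeparatedOn (⋃ n, S n) := by
  choose U hU hUd using hS
  choose f hf hfd using fun n => h.witness (S n)
  have hN : ∀ y : Y, ∃ n, y ∈ (⋃ n, S n) → y ∈ S n := by
    intro y
    by_cases hy : y ∈ ⋃ n, S n
    · obtain ⟨n, hn⟩ := mem_iUnion.1 hy
      exact ⟨n, fun _ => hn⟩
    · exact ⟨0, fun h => absurd h hy⟩
  choose N hN using hN
  have hfd' : ∀ n, ∀ a ∈ S n, ∀ b, b ∉ S n → Disjoint (f n a) (f n b) := by
    intro n a ha b hb
    refine (hfd n).mono ?_ ?_
    · exact subset_biUnion_of_mem (u := fun z => f n z) ha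
    · exact subset_biUnion_of_mem (u := fun z => f n z) hb
  refine ⟨fun y => U (N y) y ∩ ⋂ k ∈ Finset.range (N y + 1), interior (f k y), ?_, ?_⟩
  · intro y hy
    have hy' := hN y hy
    refine ⟨(hU _ y hy').1.inter (isOpen_biInter_finset fun k _ => isOpen_interior), ?_, ?_⟩
    · exact (hU _ y hy').2
    · rw [mem_iInter₂]
      intro k _
      exact mem_interior_iff_mem_nhds.2 (h.nhds y _ (h.basic _ (hf k) y))
  · intro y hy z hz hyz
    have hy' := hN y hy
    have hz' := hN z hz
    rcases lt_trichotomy (N y) (N z) with hlt | heq | hgt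
    · have hzn : z ∉ S (N y) := fun hzn => (Set.disjoint_left.1 (hd _ _ hlt.ne) hzn) hz'
      refine (hfd' (N y) y hy' z hzn).mono ?_ ?_
      · refine inter_subset_right.trans ?_
        refine (biInter_subset_of_mem (s := (Finset.range (N y + 1) : Set ℕ))
          (t := fun k => interior (f k y)) (x := N y) ?_).trans interior_subset
        simp
      · refine inter_subset_right.trans ?_
        refine (biInter_subset_of_mem (s := (Finset.range (N z + 1) : Set ℕ))
          (t := fun k => interior (f k z)) (x := N y) ?_).trans interior_subset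
        simp only [Finset.coe_range, mem_Iio]
        omega
    · rw [← heq] at hz'
      refine (hUd (N y) y hy' z hz' hyz).mono inter_subset_left ?_
      rw [heq]
      exact inter_subset_left
    · have hyn : y ∉ S (N z) := fun hyn => (Set.disjoint_left.1 (hd _ _ hgt.ne) hyn) hy'
      refine ((hfd' (N z) z hz' y hyn).mono ?_ ?_).symm
      · refine inter_subset_right.trans ?_
        refine (biInter_subset_of_mem (s := (Finset.range (N z + 1) : Set ℕ))
          (t := fun k => interior (f k z)) (x := N z) ?_).trans interior_subset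
        simp
      · refine inter_subset_right.trans ?_
        refine (biInter_subset_of_mem (s := (Finset.range (N y + 1) : Set ℕ))
          (t := fun k => interior (f k y)) (x := N z) ?_).trans interior_subset
        simp only [Finset.coe_range, mem_Iio]
        omega

theorem SeparatedOn.mono {S T : Set Y} (hT : SeparatedOn T) (hST : S ⊆ T) : SeparatedOn S := by
  obtain ⟨U, hU, hd⟩ := hT
  exact ⟨U, fun y hy => hU y (hST hy), fun y hy z hz hyz => hd y (hST hy) z (hST hz) hyz⟩

theorem Setting.fullIdeal (h : Setting X Y B F) :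
    FullIdeal (fun f : F => comp f.1) (fun S : Set Y => SeparatedOn S) where
  mono := fun S T hT hST => hT.mono hST
  subs := fun S hS => ⟨fun _ => univ, fun y _ => ⟨isOpen_univ, mem_univ _⟩,
    fun y hy z hz hyz => absurd (hS hy hz) hyz⟩
  iUnion := by
    intro S hS
    rw [← iUnion_disjointed]
    refine h.iUnion_disjoint _ ?_ ?_
    · intro m n hmn
      exact disjoint_disjointed S hmn
    · intro n
      exact (hS n).mono (disjointed_subset S n)
  full := by
    intro f S hS
    choose U hU hUd using hS
    let st : Setoid Y := ⟨comp f.1, comp_equiv f.1⟩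
    let rep : Y → Y := fun y => (Quotient.mk st y).out
    have hrep : ∀ y, comp f.1 (rep y) y := fun y => Quotient.mk_out (s := st) y
    have hrep' : ∀ y z, comp f.1 y z → rep y = rep z := by
      intro y z hyz
      have : Quotient.mk st y = Quotient.mk st z := Quotient.sound hyz
      simp only [rep, this]
    refine ⟨fun y => U (rep y) y ∩ interior (f.1 y), ?_, ?_⟩
    · intro y hy
      have h1 := hU (rep y) y ⟨hy, hrep y⟩
      exact ⟨h1.1.inter isOpen_interior, h1.2,
        mem_interior_iff_mem_nhds.2 (h.nhds y _ (h.basic _ f.2 y))⟩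
    · intro y hy z hz hyz
      by_cases hc : comp f.1 y z
      · have h1 := hrep' y z hc
        have h2 := hUd (rep y) y ⟨hy, hrep y⟩ z ⟨hz, by rw [h1]; exact hrep z⟩ hyz
        refine h2.mono inter_subset_left ?_
        rw [h1]
        exact inter_subset_left
      · refine (disjoint_of_not_comp hc).mono ?_ ?_
        · exact inter_subset_right.trans interior_subset
        · exact inter_subset_right.trans interior_subset

end

section Transport

variable {Ω : Type u} {Ω' : Type v} {ι : Type*} (e : Ω ≃ Ω') {E : ι → Ω → Ω → Prop}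
  {I : Set Ω → Prop}

theorem Capt.transport (h : Capt E) : Capt (fun i a b => E i (e.symm a) (e.symm b)) := by
  intro Z
  obtain ⟨i, hi⟩ := h (e ⁻¹' Z)
  refine ⟨i, fun a b hab => ?_⟩
  have := hi _ _ hab
  simpa using this

theorem equiv_transport (h : ∀ i, Equivalence (E i)) (i : ι) :
    Equivalence (fun a b => E i (e.symm a) (e.symm b)) :=
  ⟨fun _ => (h i).refl _, fun h' => (h i).symm h', fun h1 h2 => (h i).trans h1 h2⟩

theorem FullIdeal.transport (h : FullIdeal E I) :
    FullIdeal (fun i a b => E i (e.symm a) (e.symm b)) (fun S : Set Ω' => I (e ⁻¹' S)) where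
  mono := fun S T hT hST => h.mono _ _ hT (preimage_mono hST)
  subs := fun S hS => h.subs _ (hS.preimage e.injective)
  iUnion := fun S hS => by
    rw [preimage_iUnion]
    exact h.iUnion _ hS
  full := fun i S hS => by
    refine h.full i _ fun y => ?_
    refine h.mono _ _ (hS (e y)) ?_
    rintro z ⟨hz, hz'⟩
    refine ⟨hz, ?_⟩
    simpa using hz'

end Transport

section W

theorem w1_iio (a : W1.{u}) : (Iio a).Countable := by
  rw [← le_aleph0_iff_set_countable]
  have h : #(Iio a) < ℵ₁ := by simpa using mk_Iio_lt a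
  exact lt_aleph_one_iff.1 h

theorem w1_card : #W1.{u} = ℵ₁ := mk_ord_toType _

theorem w1_uncountable : ¬ (univ : Set W1.{u}).Countable := by
  rw [← le_aleph0_iff_set_countable, mk_univ, w1_card, not_le]
  exact aleph0_lt_aleph_one

theorem w1_inj : ∃ g : W1.{u} → ℕ → Prop, Function.Injective g := by
  have h : Cardinal.lift.{0} #W1.{u} ≤ Cardinal.lift.{u} #(ℕ → Prop) := by
    rw [lift_uzero, w1_card]
    have h1 : #(ℕ → Prop) = 2 ^ ℵ₀ := by simp
    rw [h1, lift_two_power, lift_aleph0, aleph_one_le_iff]
    exact cantor _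
  obtain ⟨g⟩ := lift_mk_le'.1 h
  exact ⟨g, g.injective⟩

theorem exists_equiv_w1 {Ω : Type u} (h : #Ω = ℵ₁) : Nonempty (Ω ≃ W1.{u}) := by
  rw [← Cardinal.eq, w1_card, h]

theorem w1_enum : ∃ enum : W1.{u} → ℕ → W1.{u}, ∀ a, Iio a ⊆ range (enum a) := by
  have h : ∀ a : W1.{u}, ∃ f : ℕ → W1.{u}, Iio a ⊆ range f := by
    intro a
    rcases (Iio a).eq_empty_or_nonempty with hem | hne
    · exact ⟨fun _ => a, by rw [hem]; exact empty_subset _⟩
    · obtain ⟨f, hf⟩ := (w1_iio a).exists_eq_range hne
      exact ⟨f, hf.le⟩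
  choose f hf using h
  exact ⟨f, hf⟩

end W

end Pool.Agent.Lib.MP_8f36f1_lc
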