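import Pool.Agent.Lib.MP_8f36f1_lc.Char

/-!
# MP_8f36f1_lc: the version with `Y` not even weakly separated

For every cardinal `κ` the existence of an example with a witnessing family of size at most `κ`
and `Y` not even weakly separated is equivalent to the existence of `κ` maps from `ω₁` to `ω` such
that every subset of `ω₁` is a preimage under one of them. In this case every almost disjoint
family of uncountable subsets of `ω₁` has size at most `max κ ℵ₀`.
-/

open Set Cardinal Topology

universe u

namespace Pool.Agent.Results.MP_8f36f1_lc.WeakVersion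

open Pool.Agent.Lib.MP_8f36f1_lc

theorem result (κ : Cardinal.{u}) :
    List.TFAE [HasWeakExample κ, HasGoodWeakExample κ, HasMaps κ] ∧
    (HasMaps κ → ∀ A : Set (Set W1.{u}), (∀ C ∈ A, ¬ C.Countable) →
      (∀ C ∈ A, ∀ D ∈ A, C ≠ D → (C ∩ D).Countable) → #A ≤ max κ ℵ₀) :=
  ⟨tfae_weak κ, fun h A hA hd => h.almostDisjoint A hA hd⟩

end Pool.Agent.Results.MP_8f36f1_lc.WeakVersion
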